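import Mathlib
import Pool.Agent.Z26.Jos.Jos8

set_option autoImplicit false

/-! # The entire functions `E₀`, `H₀` -/

namespace Pool.Agent.Z26.Jos

open Filter Topology Set Complex
open scoped ComplexConjugate

section series

lemma summable_series {c : ℕ → ℂ} {C S : ℝ} (hS : 0 ≤ S)
    (hc : ∀ k, ‖c k‖ ≤ C * S ^ k / k.factorial) (z : ℂ) : Summable (fun k => c k * z ^ k) := by
  have hC : 0 ≤ C := by
    have := (norm_nonneg _).trans (hc 0)
    simpa using this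
  have hs : Summable (fun k : ℕ => C * ((S * ‖z‖) ^ k / k.factorial)) :=
    (Real.summable_pow_div_factorial _).mul_left C
  apply Summable.of_norm_bounded hs
  intro k
  rw [norm_mul, norm_pow]
  calc ‖c k‖ * ‖z‖ ^ k ≤ C * S ^ k / k.factorial * ‖z‖ ^ k :=
        mul_le_mul_of_nonneg_right (hc k) (by positivity)
    _ = _ := by rw [mul_pow]; ring

lemma two_pow_ge (k : ℕ) : (k : ℝ) ≤ 2 ^ k := by
  have : k < 2 ^ k := Nat.lt_two_pow_self
  exact_mod_cast this.le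

theorem hasDerivAt_series {c : ℕ → ℂ} {C S : ℝ} (hS : 0 ≤ S)
    (hc : ∀ k, ‖c k‖ ≤ C * S ^ k / k.factorial) (z : ℂ) :
    HasDerivAt (fun z => ∑' k, c k * z ^ k) (∑' k : ℕ, ((k : ℂ) + 1) * c (k + 1) * z ^ k) z := by
  have hC : 0 ≤ C := by
    have := (norm_nonneg _).trans (hc 0)
    simpa using this
  set R : ℝ := ‖z‖ + 1 with hR
  have hR1 : 1 ≤ R := by rw [hR]; linarith [norm_nonneg z]
  have hu : Summable (fun k : ℕ => C * ((2 * S * R) ^ k / k.factorial)) :=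
    (Real.summable_pow_div_factorial _).mul_left C
  have hbound : ∀ (k : ℕ) (y : ℂ), y ∈ Metric.ball (0 : ℂ) R →
      ‖c k * ((k : ℂ) * y ^ (k - 1))‖ ≤ C * ((2 * S * R) ^ k / k.factorial) := by
    intro k y hy
    have hy' : ‖y‖ ≤ R := by
      rw [mem_ball_zero_iff] at hy
      exact hy.le
    rw [norm_mul, norm_mul, norm_pow, Complex.norm_natCast]
    have h1 : ‖y‖ ^ (k - 1) ≤ R ^ k := by
      calc ‖y‖ ^ (k - 1) ≤ R ^ (k - 1) := pow_le_pow_left₀ (norm_nonneg _) hy' _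
        _ ≤ R ^ k := pow_le_pow_right₀ hR1 (Nat.sub_le _ _)
    have h2 := two_pow_ge k
    calc ‖c k‖ * ((k : ℝ) * ‖y‖ ^ (k - 1))
        ≤ (C * S ^ k / k.factorial) * (2 ^ k * R ^ k) := by
          apply mul_le_mul (hc k) _ (by positivity) (by positivity)
          apply mul_le_mul h2 h1 (by positivity) (by positivity)
      _ = _ := by rw [mul_pow, mul_pow]; ring
  have hz : z ∈ Metric.ball (0 : ℂ) R := by
    rw [mem_ball_zero_iff, hR]; linarith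
  have h0 : (0 : ℂ) ∈ Metric.ball (0 : ℂ) R := by
    rw [mem_ball_zero_iff, norm_zero]; linarith
  have key := hasDerivAt_tsum_of_isPreconnected (g := fun (k : ℕ) (z : ℂ) => c k * z ^ k)
    (g' := fun (k : ℕ) (z : ℂ) => c k * ((k : ℂ) * z ^ (k - 1))) hu Metric.isOpen_ball
    (convex_ball (0 : ℂ) R).isPreconnected
    (fun k y _ => (hasDerivAt_pow k y).const_mul (c k)) hbound h0 (summable_series hS hc 0) hz
  refine key.congr_deriv ?_
  have hsum : Summable (fun k : ℕ => c k * ((k : ℂ) * z ^ (k - 1))) :=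
    Summable.of_norm_bounded hu (fun k => hbound k z hz)
  rw [hsum.tsum_eq_zero_add]
  simp only [Nat.cast_zero, zero_mul, mul_zero, zero_add]
  apply tsum_congr
  intro k
  rw [Nat.add_sub_cancel]
  push_cast
  ring

lemma summable_series' {c : ℕ → ℂ} {C S : ℝ} (hS : 0 ≤ S)
    (hc : ∀ k, ‖c k‖ ≤ C * S ^ k / k.factorial) (z : ℂ) :
    Summable (fun k : ℕ => ((k : ℂ) + 1) * c (k + 1) * z ^ k) := by
  have hC : 0 ≤ C := by
    have := (norm_nonneg _).trans (hc 0)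
    simpa using this
  have hs : Summable (fun k : ℕ => C * S * ((S * ‖z‖) ^ k / k.factorial)) :=
    (Real.summable_pow_div_factorial _).mul_left (C * S)
  apply Summable.of_norm_bounded hs
  intro k
  rw [norm_mul, norm_mul, norm_pow]
  have h1 : ‖((k : ℂ) + 1)‖ = (k : ℝ) + 1 := by
    have : ((k : ℂ) + 1) = ((k + 1 : ℕ) : ℂ) := by push_cast; ring
    rw [this, Complex.norm_natCast]; push_cast; ring
  rw [h1]
  have h2 := hc (k + 1)
  have hk : (0 : ℝ) < (k : ℝ) + 1 := by positivity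
  have hfac : (((k + 1).factorial : ℕ) : ℝ) = ((k : ℝ) + 1) * (k.factorial : ℝ) := by
    rw [Nat.factorial_succ]; push_cast; ring
  have h3 : ((k : ℝ) + 1) * ‖c (k + 1)‖ ≤ C * S * S ^ k / k.factorial := by
    have := mul_le_mul_of_nonneg_left h2 hk.le
    refine this.trans (le_of_eq ?_)
    rw [hfac, pow_succ]
    field_simp
  calc ((k : ℝ) + 1) * ‖c (k + 1)‖ * ‖z‖ ^ k ≤ C * S * S ^ k / k.factorial * ‖z‖ ^ k :=
        mul_le_mul_of_nonneg_right h3 (by positivity)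
    _ = _ := by rw [mul_pow]; ring

end series

section EH

variable {κ μ : ℝ} {n : ℕ}

/-- `E₀`. -/
noncomputable def E0 (κ μ : ℝ) (n : ℕ) (z : ℂ) : ℂ := ∑' k : ℕ, ((es κ μ n k).1 : ℂ) * z ^ k

/-- `H₀`. -/
noncomputable def H0 (κ μ : ℝ) (n : ℕ) (z : ℂ) : ℂ := ∑' k : ℕ, ((es κ μ n k).2 : ℂ) * z ^ k

/-- The decay hypothesis. -/
def Decay (κ μ : ℝ) (n : ℕ) (C S : ℝ) : Prop :=
  0 ≤ S ∧ (∀ k, |(es κ μ n k).1| ≤ C * S ^ k / k.factorial) ∧
    (∀ k, |(es κ μ n k).2| ≤ C * S ^ k / k.factorial)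

variable {C S : ℝ}

lemma Decay.one (h : Decay κ μ n C S) (k : ℕ) :
    ‖((es κ μ n k).1 : ℂ)‖ ≤ C * S ^ k / k.factorial := by
  rw [Complex.norm_real, Real.norm_eq_abs]; exact h.2.1 k

lemma Decay.two (h : Decay κ μ n C S) (k : ℕ) :
    ‖((es κ μ n k).2 : ℂ)‖ ≤ C * S ^ k / k.factorial := by
  rw [Complex.norm_real, Real.norm_eq_abs]; exact h.2.2 k

lemma Decay.hasSum_E (h : Decay κ μ n C S) (z : ℂ) :
    HasSum (fun k : ℕ => ((es κ μ n k).1 : ℂ) * z ^ k) (E0 κ μ n z) :=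
  (summable_series h.1 h.one z).hasSum

lemma Decay.hasSum_H (h : Decay κ μ n C S) (z : ℂ) :
    HasSum (fun k : ℕ => ((es κ μ n k).2 : ℂ) * z ^ k) (H0 κ μ n z) :=
  (summable_series h.1 h.two z).hasSum

/-- First ODE. -/
lemma Decay.hasDerivAt_E (h : Decay κ μ n C S) (z : ℂ) :
    HasDerivAt (E0 κ μ n) (μ * E0 κ μ n z + κ * H0 κ μ n z) z := by
  have h1 := hasDerivAt_series h.1 h.one z
  refine h1.congr_deriv ?_
  have h2 : HasSum (fun k : ℕ => (μ : ℂ) * (((es κ μ n k).1 : ℂ) * z ^ k) +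
      (κ : ℂ) * (((es κ μ n k).2 : ℂ) * z ^ k)) (μ * E0 κ μ n z + κ * H0 κ μ n z) :=
    ((h.hasSum_E z).mul_left _).add ((h.hasSum_H z).mul_left _)
  rw [← h2.tsum_eq]
  apply tsum_congr
  intro k
  have r1 : ((k : ℂ) + 1) * ((es κ μ n (k + 1)).1 : ℂ) =
      μ * ((es κ μ n k).1 : ℂ) + κ * ((es κ μ n k).2 : ℂ) := by
    exact_mod_cast es_one κ μ n k
  linear_combination (z ^ k) * r1

/-- Derivative of `H₀`. -/
noncomputable def H0' (κ μ : ℝ) (n : ℕ) (z : ℂ) : ℂ :=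
  ∑' k : ℕ, ((k : ℂ) + 1) * ((es κ μ n (k + 1)).2 : ℂ) * z ^ k

lemma Decay.hasDerivAt_H (h : Decay κ μ n C S) (z : ℂ) :
    HasDerivAt (H0 κ μ n) (H0' κ μ n z) z :=
  hasDerivAt_series h.1 h.two z

/-- Second ODE. -/
lemma Decay.ode_H (hμ : 0 < μ) (h : Decay κ μ n C S) (z : ℂ) :
    z ^ 2 * H0' κ μ n z = -(((n : ℂ) + 1) * z + μ) * H0 κ μ n z - κ * E0 κ μ n z := by
  have h1 : HasSum (fun k : ℕ => ((k : ℂ) + 1) * ((es κ μ n (k + 1)).2 : ℂ) * z ^ k)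
      (H0' κ μ n z) := (summable_series' h.1 h.two z).hasSum
  have h1' := h1.mul_left (z ^ 2)
  -- sum of k η_k z^(k+1)
  have h2 : HasSum (fun k : ℕ => (k : ℂ) * ((es κ μ n k).2 : ℂ) * z ^ (k + 1))
      (z ^ 2 * H0' κ μ n z) := by
    rw [← hasSum_nat_add_iff' 1]
    simp only [Finset.range_one, Finset.sum_singleton, Nat.cast_zero, zero_mul, sub_zero]
    refine h1'.congr_fun ?_
    intro k
    push_cast
    ring
  have h3 := (h.hasSum_H z).mul_left (((n : ℂ) + 1) * z)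
  have h4 : HasSum (fun k : ℕ => (μ : ℂ) * (((es κ μ n (k + 1)).2 : ℂ) * z ^ (k + 1)))
      ((μ : ℂ) * (H0 κ μ n z - ((es κ μ n 0).2 : ℂ))) := by
    apply HasSum.mul_left
    have := (hasSum_nat_add_iff' 1).mpr (h.hasSum_H z)
    simpa using this
  have h5 : HasSum (fun k : ℕ => (κ : ℂ) * (((es κ μ n (k + 1)).1 : ℂ) * z ^ (k + 1)))
      ((κ : ℂ) * (E0 κ μ n z - ((es κ μ n 0).1 : ℂ))) := by
    apply HasSum.mul_left
    have := (hasSum_nat_add_iff' 1).mpr (h.hasSum_E z)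
    simpa using this
  have h6 := ((h2.add h3).add h4).add h5
  have h7 : HasSum (fun _ : ℕ => (0 : ℂ)) 0 := hasSum_zero
  have h8 := h6.unique (by
    convert h7 using 2 with k
    have r2 : ((k : ℂ) + n + 1) * ((es κ μ n k).2 : ℂ) + μ * ((es κ μ n (k + 1)).2 : ℂ) +
        κ * ((es κ μ n (k + 1)).1 : ℂ) = 0 := by
      exact_mod_cast es_two κ hμ n k
    linear_combination (z ^ (k + 1)) * r2)
  have e0 : ((es κ μ n 0).1 : ℂ) = 1 := by simp [es]
  have e1 : (μ : ℂ) * ((es κ μ n 0).2 : ℂ) = -κ := by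
    have : (μ : ℂ) ≠ 0 := by exact_mod_cast hμ.ne'
    simp only [es]
    push_cast
    field_simp
  rw [e0] at h8
  linear_combination h8 + e1

lemma E0_zero (h : Decay κ μ n C S) : E0 κ μ n 0 = 1 := by
  have h1 := h.hasSum_E 0
  have h2 := hasSum_single (f := fun k : ℕ => ((es κ μ n k).1 : ℂ) * 0 ^ k) 0 (by
    intro k hk
    simp [hk])
  have := h1.unique h2
  rw [this]
  simp [es]

lemma H0_zero (h : Decay κ μ n C S) : H0 κ μ n 0 = -(κ / μ) := by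
  have h1 := h.hasSum_H 0
  have h2 := hasSum_single (f := fun k : ℕ => ((es κ μ n k).2 : ℂ) * 0 ^ k) 0 (by
    intro k hk
    simp [hk])
  have := h1.unique h2
  rw [this]
  simp [es]

lemma E0_conj (κ μ : ℝ) (n : ℕ) (z : ℂ) : E0 κ μ n (conj z) = conj (E0 κ μ n z) := by
  unfold E0
  rw [conj_tsum]
  apply tsum_congr
  intro k
  rw [map_mul, map_pow, Complex.conj_ofReal]

lemma H0_conj (κ μ : ℝ) (n : ℕ) (z : ℂ) : H0 κ μ n (conj z) = conj (H0 κ μ n z) := by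
  unfold H0
  rw [conj_tsum]
  apply tsum_congr
  intro k
  rw [map_mul, map_pow, Complex.conj_ofReal]

lemma E0_im (κ μ : ℝ) (n : ℕ) (x : ℝ) : (E0 κ μ n x).im = 0 := by
  rw [← Complex.conj_eq_iff_im, ← E0_conj, Complex.conj_ofReal]

lemma H0_im (κ μ : ℝ) (n : ℕ) (x : ℝ) : (H0 κ μ n x).im = 0 := by
  rw [← Complex.conj_eq_iff_im, ← H0_conj, Complex.conj_ofReal]

/-- Real versions. -/
noncomputable def eR (κ μ : ℝ) (n : ℕ) (x : ℝ) : ℝ := (E0 κ μ n x).re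

noncomputable def hR (κ μ : ℝ) (n : ℕ) (x : ℝ) : ℝ := (H0 κ μ n x).re

lemma E0_eq_eR (κ μ : ℝ) (n : ℕ) (x : ℝ) : E0 κ μ n x = eR κ μ n x := by
  apply Complex.ext
  · simp [eR]
  · simp [E0_im]

lemma H0_eq_hR (κ μ : ℝ) (n : ℕ) (x : ℝ) : H0 κ μ n x = hR κ μ n x := by
  apply Complex.ext
  · simp [hR]
  · simp [H0_im]

lemma Decay.hasDerivAt_eR (h : Decay κ μ n C S) (x : ℝ) :
    HasDerivAt (eR κ μ n) (μ * eR κ μ n x + κ * hR κ μ n x) x := by
  have h1 := (h.hasDerivAt_E (x : ℂ)).real_of_complex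
  refine h1.congr_deriv ?_
  rw [E0_eq_eR, H0_eq_hR]
  norm_cast

/-- Derivative of `hR`. -/
noncomputable def hR' (κ μ : ℝ) (n : ℕ) (x : ℝ) : ℝ := (H0' κ μ n x).re

lemma Decay.hasDerivAt_hR (h : Decay κ μ n C S) (x : ℝ) :
    HasDerivAt (hR κ μ n) (hR' κ μ n x) x :=
  (h.hasDerivAt_H (x : ℂ)).real_of_complex

lemma Decay.ode_hR (hμ : 0 < μ) (h : Decay κ μ n C S) (x : ℝ) :
    x ^ 2 * hR' κ μ n x = -(((n : ℝ) + 1) * x + μ) * hR κ μ n x - κ * eR κ μ n x := by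
  have h1 := congrArg Complex.re (h.ode_H hμ (x : ℂ))
  rw [E0_eq_eR, H0_eq_hR] at h1
  have e1 : ((x : ℂ) ^ 2 * H0' κ μ n x).re = x ^ 2 * hR' κ μ n x := by
    rw [← Complex.ofReal_pow, Complex.re_ofReal_mul]
    rfl
  rw [e1] at h1
  rw [h1]
  have e2 : (-(((n : ℂ) + 1) * (x : ℂ) + μ) * (hR κ μ n x : ℂ) - κ * (eR κ μ n x : ℂ)) =
    ((-(((n : ℝ) + 1) * x + μ) * hR κ μ n x - κ * eR κ μ n x : ℝ) : ℂ) := by push_cast; ring
  rw [e2, Complex.ofReal_re]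

end EH

end Pool.Agent.Z26.Jos
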