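import Mathlib

set_option autoImplicit false

/-! # Auxiliary functions for the WKB type estimate -/

namespace Pool.Agent.Z26.Jos

open Filter Topology Set

/-- The straightened angle. -/
noncomputable def W (ρ θ : ℝ) : ℝ :=
  θ + 2 * Real.arctan (ρ * Real.sin θ / (1 - ρ * Real.cos θ))

lemma one_sub_pos {ρ : ℝ} (h0 : 0 ≤ ρ) (h : ρ < 1) (θ : ℝ) : 0 < 1 - ρ * Real.cos θ := by
  have := mul_le_mul_of_nonneg_left (Real.cos_le_one θ) h0
  linarith

lemma D_pos {ρ : ℝ} (h0 : 0 ≤ ρ) (h : ρ < 1) (θ : ℝ) : 0 < 1 - 2 * ρ * Real.cos θ + ρ ^ 2 := by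
  have h1 := mul_le_mul_of_nonneg_left (Real.cos_le_one θ) h0
  nlinarith [sq_nonneg (1 - ρ), mul_pos (sub_pos.mpr h) (sub_pos.mpr h)]

lemma hasDerivAt_W {ρ θ : ℝ → ℝ} {ρ' θ' t : ℝ} (h0 : 0 ≤ ρ t) (h1 : ρ t < 1)
    (hρ : HasDerivAt ρ ρ' t) (hθ : HasDerivAt θ θ' t) :
    HasDerivAt (fun t => W (ρ t) (θ t))
      (((1 - ρ t ^ 2) * θ' + 2 * Real.sin (θ t) * ρ') /
        (1 - 2 * ρ t * Real.cos (θ t) + ρ t ^ 2)) t := by
  have hp := one_sub_pos h0 h1 (θ t)
  have hD := D_pos h0 h1 (θ t)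
  have hs := hθ.sin
  have hc := hθ.cos
  have hu := (hρ.mul hs).div ((hasDerivAt_const t (1 : ℝ)).sub (hρ.mul hc)) hp.ne'
  have h2 := hθ.add ((hu.arctan).const_mul 2)
  refine h2.congr_deriv ?_
  have hsc := Real.sin_sq_add_cos_sq (θ t)
  change θ' + 2 * (1 / (1 + (ρ t * Real.sin (θ t) / (1 - ρ t * Real.cos (θ t))) ^ 2) *
          (((ρ' * Real.sin (θ t) + ρ t * (Real.cos (θ t) * θ')) * (1 - ρ t * Real.cos (θ t)) -
              ρ t * Real.sin (θ t) * (0 - (ρ' * Real.cos (θ t) + ρ t * (-Real.sin (θ t) * θ')))) /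
            (1 - ρ t * Real.cos (θ t)) ^ 2)) = _
  generalize Real.sin (θ t) = s at *
  generalize Real.cos (θ t) = c at *
  generalize ρ t = r at *
  have hD' : (1 - r * c) ^ 2 + (r * s) ^ 2 = 1 - 2 * r * c + r ^ 2 := by
    linear_combination (r ^ 2) * hsc
  have hsum : 1 + (r * s / (1 - r * c)) ^ 2
      = (1 - 2 * r * c + r ^ 2) / (1 - r * c) ^ 2 := by
    rw [← hD']
    field_simp
  rw [hsum]
  have hDne := hD.ne'
  have hpne := hp.ne'
  field_simp
  linear_combination (-2 * r^2 * θ') * hsc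

/-- The quarter-disc area function: `d/dx Q R x = 2 √(R - x²)`. -/
noncomputable def Q (R x : ℝ) : ℝ := x * Real.sqrt (R - x ^ 2) + R * Real.arcsin (x / Real.sqrt R)

lemma hasDerivAt_Q {R x : ℝ} (h : x ^ 2 < R) :
    HasDerivAt (Q R) (2 * Real.sqrt (R - x ^ 2)) x := by
  have hR : 0 < R := lt_of_le_of_lt (sq_nonneg x) h
  have hsR : 0 < Real.sqrt R := Real.sqrt_pos.mpr hR
  have hpos : 0 < R - x ^ 2 := by linarith
  have hA : 0 < Real.sqrt (R - x ^ 2) := Real.sqrt_pos.mpr hpos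
  have h1 : HasDerivAt (fun x : ℝ => R - x ^ 2) (-(2 * x)) x := by
    have := ((hasDerivAt_id x).pow 2).const_sub R
    simpa using this
  have h2 := h1.sqrt hpos.ne'
  have h3 := (hasDerivAt_id x).mul h2
  have hx1 : x / Real.sqrt R ≠ -1 := by
    intro e
    have : x = -Real.sqrt R := by
      rw [div_eq_iff hsR.ne'] at e; linarith
    rw [this, neg_sq, Real.sq_sqrt hR.le] at h
    exact lt_irrefl _ h
  have hx2 : x / Real.sqrt R ≠ 1 := by
    intro e
    have : x = Real.sqrt R := by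
      rw [div_eq_iff hsR.ne'] at e; linarith
    rw [this, Real.sq_sqrt hR.le] at h
    exact lt_irrefl _ h
  have h4 := (Real.hasDerivAt_arcsin hx1 hx2).comp x ((hasDerivAt_id x).div_const (Real.sqrt R))
  have h5 := h3.add (h4.const_mul R)
  refine h5.congr_deriv ?_
  have e1 : Real.sqrt (1 - (x / Real.sqrt R) ^ 2) = Real.sqrt (R - x ^ 2) / Real.sqrt R := by
    rw [← Real.sqrt_div hpos.le]
    congr 1
    rw [div_pow, Real.sq_sqrt hR.le]
    field_simp
  simp only [id]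
  rw [e1]
  have e2 : Real.sqrt R ^ 2 = R := Real.sq_sqrt hR.le
  have e3 : Real.sqrt (R - x ^ 2) ^ 2 = R - x ^ 2 := Real.sq_sqrt hpos.le
  set A := Real.sqrt (R - x ^ 2)
  set B := Real.sqrt R
  field_simp
  linear_combination (-1:ℝ) * e3

lemma Q_zero (R : ℝ) : Q R 0 = 0 := by simp [Q]

lemma Q_ge {R x : ℝ} (hR : 0 < R) (hx : x ≤ 0) (h : x ^ 2 ≤ R) : -(R * (Real.pi / 2)) ≤ Q R x := by
  have hsR : 0 < Real.sqrt R := Real.sqrt_pos.mpr hR
  set φ := -Real.arcsin (x / Real.sqrt R) with hφ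
  have hxm : -Real.sqrt R ≤ x := by
    have : |x| ≤ Real.sqrt R := Real.abs_le_sqrt h
    exact (abs_le.mp this).1
  have hlo : -1 ≤ x / Real.sqrt R := by
    rw [le_div_iff₀ hsR]; linarith
  have hhi : x / Real.sqrt R ≤ 0 := div_nonpos_of_nonpos_of_nonneg hx hsR.le
  have hsin : Real.sin φ = -(x / Real.sqrt R) := by
    rw [hφ, Real.sin_neg, Real.sin_arcsin hlo (by linarith)]
  have hφ1 : φ ≤ Real.pi / 2 := by
    have := Real.neg_pi_div_two_le_arcsin (x / Real.sqrt R)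
    rw [hφ]; linarith
  have hφ0 : 0 ≤ φ := by
    rw [hφ]
    have := Real.arcsin_nonpos.mpr hhi
    linarith
  have hcos0 : 0 ≤ Real.cos φ := Real.cos_nonneg_of_mem_Icc ⟨by linarith [Real.pi_pos], hφ1⟩
  have hcos : Real.cos φ * Real.sqrt R = Real.sqrt (R - x ^ 2) := by
    rw [eq_comm, Real.sqrt_eq_iff_mul_self_eq (by linarith) (by positivity)]
    have e2 : Real.sqrt R ^ 2 = R := Real.sq_sqrt hR.le
    have hx' : x = -(Real.sin φ) * Real.sqrt R := by
      rw [hsin]; field_simp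
    have := Real.sin_sq_add_cos_sq φ
    rw [hx']
    linear_combination (-(Real.sqrt R)^2) * this - e2
  have hxs : x = -(Real.sin φ) * Real.sqrt R := by
    rw [hsin]; field_simp
  have hQ : Q R x = -(R * (Real.sin φ * Real.cos φ + φ)) := by
    unfold Q
    rw [← hcos]
    have e2 : Real.sqrt R ^ 2 = R := Real.sq_sqrt hR.le
    have : Real.arcsin (x / Real.sqrt R) = -φ := by rw [hφ]; ring
    rw [this]
    nth_rewrite 1 [hxs]
    linear_combination (-(Real.sin φ * Real.cos φ)) * e2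
  rw [hQ]
  have h1 : Real.sin φ * Real.cos φ ≤ Real.pi / 2 - φ := by
    calc Real.sin φ * Real.cos φ ≤ 1 * Real.cos φ :=
          mul_le_mul_of_nonneg_right (Real.sin_le_one φ) hcos0
      _ = Real.sin (Real.pi / 2 - φ) := by rw [one_mul, Real.sin_pi_div_two_sub]
      _ ≤ Real.pi / 2 - φ := Real.sin_le (by linarith)
  have : R * (Real.sin φ * Real.cos φ + φ) ≤ R * (Real.pi / 2) :=
    mul_le_mul_of_nonneg_left (by linarith) hR.le
  linarith

/-- The polynomial convexity inequality. -/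
lemma conv_ineq {p q s b : ℝ} (hp : 0 ≤ p) (hq : 0 ≤ q) (hs : 0 ≤ s) (hb0 : 0 ≤ b) (hb1 : b ≤ 1)
    (h : s ^ 2 = (1 - b) * q ^ 2 + b * p ^ 2) : p * q ≤ s * ((1 - b) * p + b * q) := by
  have h1b : 0 ≤ 1 - b := by linarith
  apply le_of_sq_le_sq _ (by positivity)
  have hid : (s * ((1 - b) * p + b * q)) ^ 2 - (p * q) ^ 2
      = (q - p) ^ 2 * b * (1 - b) * ((1 - b) * p ^ 2 + 2 * p * q + b * q ^ 2) := by
    rw [mul_pow, h]
    ring
  have : 0 ≤ (q - p) ^ 2 * b * (1 - b) * ((1 - b) * p ^ 2 + 2 * p * q + b * q ^ 2) := by positivity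
  linarith

end Pool.Agent.Z26.Jos
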