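import Mathlib
import Pool.Agent.Z26.Jos.Jos9
import Pool.Agent.Z26.Jos.Jos10

set_option autoImplicit false

/-! # Fourier coefficients -/

namespace Pool.Agent.Z26.Jos

open Filter Topology Set Complex
open scoped ComplexConjugate

/-- Fourier coefficients (normalised by `1/2π`). -/
noncomputable def co (g : ℝ → ℂ) (k : ℤ) : ℂ :=
  (1 / (2 * Real.pi) : ℝ) • ∫ τ in (0 : ℝ)..(2 * Real.pi), Complex.exp (-(k * τ * I)) * g τ

lemma exp_shift (k : ℤ) (τ : ℝ) :
    Complex.exp (-(k * τ * I)) * zz τ = Complex.exp (-(((k - 1 : ℤ) : ℂ) * τ * I)) := by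
  unfold zz
  rw [← Complex.exp_add]
  congr 1
  push_cast
  ring

lemma hasDerivAt_expk (k : ℤ) (τ : ℝ) :
    HasDerivAt (fun τ : ℝ => Complex.exp (-(k * τ * I)))
      (Complex.exp (-(k * τ * I)) * (-(k * I))) τ := by
  have h1 : HasDerivAt (fun τ : ℝ => -((k : ℂ) * τ * I)) (-(k * I)) τ := by
    have := (((Complex.ofRealCLM.hasDerivAt (x := τ)).const_mul (k : ℂ)).mul_const I).neg
    refine this.congr_deriv ?_
    simp
  exact h1.cexp

lemma conj_zz (τ : ℝ) : conj (zz τ) = Complex.exp (-(τ * I)) := by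
  unfold zz
  rw [← Complex.exp_conj]
  congr 1
  simp

lemma exp_two_pi_int (k : ℤ) : Complex.exp (-(k * (2 * Real.pi : ℝ) * I)) = 1 := by
  rw [Complex.exp_eq_one_iff]
  exact ⟨-k, by push_cast; ring⟩

lemma co_continuous_aux (k : ℤ) : Continuous (fun τ : ℝ => Complex.exp (-(k * τ * I))) :=
  continuous_iff_continuousAt.mpr fun τ => (hasDerivAt_expk k τ).continuousAt

/-- Bound for coefficients. -/
lemma co_bound {g : ℝ → ℂ} {M : ℝ} (hM : ∀ τ ∈ Icc 0 (2 * Real.pi), ‖g τ‖ ≤ M) (k : ℤ) :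
    ‖co g k‖ ≤ M := by
  unfold co
  have hpi := Real.pi_pos
  have h1 : ‖∫ τ in (0 : ℝ)..(2 * Real.pi), Complex.exp (-(k * τ * I)) * g τ‖
      ≤ M * |2 * Real.pi - 0| := by
    apply intervalIntegral.norm_integral_le_of_norm_le_const
    intro τ hτ
    rw [uIoc_of_le (by positivity)] at hτ
    rw [norm_mul]
    have : ‖Complex.exp (-(k * τ * I))‖ = 1 := by
      have e : (-((k : ℂ) * τ * I)) = ((-(k * τ) : ℝ) : ℂ) * I := by push_cast; ring
      rw [e, Complex.norm_exp_ofReal_mul_I]
    rw [this, one_mul]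
    exact hM τ ⟨hτ.1.le, hτ.2⟩
  rw [sub_zero, abs_of_pos (by positivity)] at h1
  rw [norm_smul, Real.norm_eq_abs, abs_of_pos (by positivity)]
  calc 1 / (2 * Real.pi) * _ ≤ 1 / (2 * Real.pi) * (M * (2 * Real.pi)) :=
        mul_le_mul_of_nonneg_left h1 (by positivity)
    _ = M := by field_simp

section main

variable {κ μ : ℝ} {n : ℕ} {E H : ℝ → ℂ} {c : ℂ}

/-- The first recurrence. -/
lemma co_rec_one (hEper : ∀ τ, E (τ + 2 * Real.pi) = E τ) (hHc : Continuous H)
    (hE : ∀ τ, HasDerivAt E (I * zz τ * (μ * E τ + κ * H τ)) τ) (k : ℤ) :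
    (k : ℂ) * co E k = μ * co E (k - 1) + κ * co H (k - 1) := by
  have hEc : Continuous E := continuous_iff_continuousAt.mpr fun τ => (hE τ).continuousAt
  have hd : ∀ τ : ℝ, HasDerivAt (fun τ : ℝ => Complex.exp (-(k * τ * I)) * E τ)
      (Complex.exp (-(k * τ * I)) * (-(k * I)) * E τ +
        Complex.exp (-(k * τ * I)) * (I * zz τ * (μ * E τ + κ * H τ))) τ :=
    fun τ => (hasDerivAt_expk k τ).mul (hE τ)
  have hc1 := co_continuous_aux k
  have hc2 := co_continuous_aux (k - 1)
  have hzc : Continuous zz := continuous_iff_continuousAt.mpr fun τ => (hasDerivAt_zz τ).continuousAt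
  have hint := intervalIntegral.integral_eq_sub_of_hasDerivAt (a := 0) (b := 2 * Real.pi)
    (fun τ _ => hd τ) (by
      apply Continuous.intervalIntegrable
      fun_prop)
  have hbdry : Complex.exp (-(k * (2 * Real.pi : ℝ) * I)) * E (2 * Real.pi) -
      Complex.exp (-(k * (0 : ℝ) * I)) * E 0 = 0 := by
    rw [exp_two_pi_int]
    have := hEper 0
    rw [zero_add] at this
    rw [this]
    simp
  rw [hbdry] at hint
  have e : ∀ τ : ℝ, (Complex.exp (-(k * τ * I)) * (-(k * I)) * E τ +
        Complex.exp (-(k * τ * I)) * (I * zz τ * (μ * E τ + κ * H τ))) =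
      (-(k * I)) * (Complex.exp (-(k * τ * I)) * E τ) +
      (I * μ) * (Complex.exp (-(((k - 1 : ℤ) : ℂ) * τ * I)) * E τ) +
      (I * κ) * (Complex.exp (-(((k - 1 : ℤ) : ℂ) * τ * I)) * H τ) := by
    intro τ
    rw [← exp_shift]
    ring
  simp_rw [e] at hint
  have hi1 : IntervalIntegrable (fun τ : ℝ => (-(k * I)) * (Complex.exp (-(k * τ * I)) * E τ))
      MeasureTheory.volume 0 (2 * Real.pi) := by
    apply Continuous.intervalIntegrable; fun_prop
  have hi2 : IntervalIntegrable (fun τ : ℝ =>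
      (I * μ) * (Complex.exp (-(((k - 1 : ℤ) : ℂ) * τ * I)) * E τ))
      MeasureTheory.volume 0 (2 * Real.pi) := by
    apply Continuous.intervalIntegrable; fun_prop
  have hi3 : IntervalIntegrable (fun τ : ℝ =>
      (I * κ) * (Complex.exp (-(((k - 1 : ℤ) : ℂ) * τ * I)) * H τ))
      MeasureTheory.volume 0 (2 * Real.pi) := by
    apply Continuous.intervalIntegrable; fun_prop
  rw [intervalIntegral.integral_add (hi1.add hi2) hi3, intervalIntegral.integral_add hi1 hi2,
    intervalIntegral.integral_const_mul, intervalIntegral.integral_const_mul,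
    intervalIntegral.integral_const_mul] at hint
  unfold co
  simp only [Complex.real_smul]
  generalize (∫ τ in (0 : ℝ)..(2 * Real.pi), Complex.exp (-(k * τ * I)) * E τ) = X at *
  generalize (∫ τ in (0 : ℝ)..(2 * Real.pi),
    Complex.exp (-(((k - 1 : ℤ) : ℂ) * τ * I)) * E τ) = Y at *
  generalize (∫ τ in (0 : ℝ)..(2 * Real.pi),
    Complex.exp (-(((k - 1 : ℤ) : ℂ) * τ * I)) * H τ) = Z at *
  generalize ((1 / (2 * Real.pi) : ℝ) : ℂ) = w
  linear_combination (I * w) * hint + (k * X - μ * Y - κ * Z) * w * Complex.I_sq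

/-- The symmetry of coefficients. -/
lemma co_symm (hH : ∀ τ, H τ = c * conj (zz τ) ^ (n + 1) * conj (E τ)) (k : ℤ) :
    co H k = c * conj (co E (-((n : ℤ) + 1) - k)) := by
  unfold co
  simp only [Complex.real_smul, map_mul, Complex.conj_ofReal]
  have e : ∀ τ : ℝ, Complex.exp (-(k * τ * I)) * H τ =
      c * conj (Complex.exp (-(((-((n : ℤ) + 1) - k : ℤ) : ℂ) * τ * I)) * E τ) := by
    intro τ
    rw [hH τ, conj_zz, ← Complex.exp_nat_mul, map_mul, ← Complex.exp_conj]
    have : Complex.exp (-(k * τ * I)) * Complex.exp (((n + 1 : ℕ) : ℂ) * (-((τ : ℂ) * I))) =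
        Complex.exp (conj (-(((-((n : ℤ) + 1) - k : ℤ) : ℂ) * τ * I))) := by
      rw [← Complex.exp_add]
      congr 1
      simp only [map_neg, map_mul, Complex.conj_ofReal, Complex.conj_I, map_intCast]
      push_cast
      ring
    linear_combination (c * conj (E τ)) * this
  simp_rw [e]
  rw [intervalIntegral.integral_const_mul]
  have h2 : (∫ τ in (0 : ℝ)..(2 * Real.pi),
      conj (Complex.exp (-(((-((n : ℤ) + 1) - k : ℤ) : ℂ) * τ * I)) * E τ)) =
      conj (∫ τ in (0 : ℝ)..(2 * Real.pi),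
        (Complex.exp (-(((-((n : ℤ) + 1) - k : ℤ) : ℂ) * τ * I)) * E τ)) := by
    rw [intervalIntegral.integral_of_le (by positivity),
      intervalIntegral.integral_of_le (by positivity), integral_conj]
  rw [h2]
  ring

/-- The second recurrence. -/
lemma co_rec_two (hc : c * conj c = 1) (hEper : ∀ τ, E (τ + 2 * Real.pi) = E τ)
    (hHc : Continuous H) (hE : ∀ τ, HasDerivAt E (I * zz τ * (μ * E τ + κ * H τ)) τ)
    (hH : ∀ τ, H τ = c * conj (zz τ) ^ (n + 1) * conj (E τ)) (k : ℤ) :
    ((k : ℂ) + n + 1) * co H k + μ * co H (k + 1) + κ * co E (k + 1) = 0 := by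
  have h1 := congrArg (fun z => c * conj z) (co_rec_one hEper hHc hE (-((n : ℤ) + 1) - k))
  simp only [map_mul, map_add, Complex.conj_ofReal, map_intCast] at h1
  have s1 := co_symm (n := n) hH k
  have s2 := co_symm (n := n) hH (k + 1)
  have s3 := co_symm (n := n) hH (-((n : ℤ) + 1) - k - 1)
  have e2 : (-((n : ℤ) + 1) - (k + 1)) = (-((n : ℤ) + 1) - k - 1) := by ring
  have e3 : (-((n : ℤ) + 1) - (-((n : ℤ) + 1) - k - 1)) = k + 1 := by ring
  rw [e2] at s2
  rw [e3] at s3
  have s3' : c * conj (co H (-((n : ℤ) + 1) - k - 1)) = co E (k + 1) := by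
    rw [s3, map_mul, Complex.conj_conj]
    linear_combination (co E (k + 1)) * hc
  have e4 : (((-((n : ℤ) + 1) - k : ℤ)) : ℂ) = -((k : ℂ) + n + 1) := by push_cast; ring
  rw [e4] at h1
  rw [s1, s2, ← s3']
  linear_combination (-1 : ℂ) * h1

/-- The continuous function on the circle. -/
lemma hasSum_fourier (hEc : Continuous E) (hEper : ∀ τ, E (τ + 2 * Real.pi) = E τ)
    (hs : Summable (fun k : ℤ => co E k)) (τ : ℝ) :
    HasSum (fun k : ℤ => co E k * Complex.exp (k * τ * I)) (E τ) := by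
  have : Fact (0 < 2 * Real.pi) := ⟨by positivity⟩
  have hper : Function.Periodic E (2 * Real.pi) := hEper
  have hcont : Continuous (hper.lift : AddCircle (2 * Real.pi) → ℂ) :=
    continuous_coinduced_dom.mpr (by exact hEc)
  set f : C(AddCircle (2 * Real.pi), ℂ) := ⟨hper.lift, hcont⟩ with hf
  have hcoef : ∀ k : ℤ, fourierCoeff f k = co E k := by
    intro k
    rw [fourierCoeff_eq_intervalIntegral f k 0]
    unfold co
    rw [zero_add]
    congr 1
    apply intervalIntegral.integral_congr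
    intro x _
    simp only [smul_eq_mul]
    have e1 : (f (x : AddCircle (2 * Real.pi))) = E x := by
      rw [hf]
      exact Function.Periodic.lift_coe hper x
    rw [e1, fourier_coe_apply]
    congr 2
    push_cast
    have : (Real.pi : ℂ) ≠ 0 := by exact_mod_cast Real.pi_ne_zero
    field_simp
  have hs' : Summable (fourierCoeff f) := by
    have : fourierCoeff f = fun k => co E k := funext hcoef
    rw [this]; exact hs
  have key := has_pointwise_sum_fourier_series_of_summable hs' (τ : AddCircle (2 * Real.pi))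
  have e2 : (f (τ : AddCircle (2 * Real.pi))) = E τ := by
    rw [hf]
    exact Function.Periodic.lift_coe hper τ
  rw [e2] at key
  refine key.congr_fun ?_
  intro k
  rw [hcoef, fourier_coe_apply, smul_eq_mul]
  congr 2
  push_cast
  have : (Real.pi : ℂ) ≠ 0 := by exact_mod_cast Real.pi_ne_zero
  field_simp

end main

end Pool.Agent.Z26.Jos
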