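import Mathlib
import Pool.Agent.Z26.Jos.Jos11
import Pool.Agent.Z26.Jos.Jos12

set_option autoImplicit false

/-! # The decomposition of `E` and the parity argument -/

namespace Pool.Agent.Z26.Jos

open Filter Topology Set Complex
open scoped ComplexConjugate

section main

variable {κ μ : ℝ} {n : ℕ} {E H : ℝ → ℂ} {c : ℂ}

lemma zz_cont : Continuous zz :=
  continuous_iff_continuousAt.mpr fun τ => (hasDerivAt_zz τ).continuousAt

lemma exp_nat_zz (k : ℕ) (τ : ℝ) : Complex.exp (((k : ℤ) : ℂ) * τ * I) = zz τ ^ k := by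
  unfold zz
  rw [← Complex.exp_nat_mul]
  congr 1
  push_cast
  ring

lemma exp_neg_zz (k : ℕ) (τ : ℝ) :
    Complex.exp (((-((k : ℤ)) : ℤ) : ℂ) * τ * I) = conj (zz τ) ^ k := by
  rw [conj_zz, ← Complex.exp_nat_mul]
  congr 1
  push_cast
  ring

/-- The decomposition. -/
theorem decomp (hn : 1 ≤ n) (hκ : 0 < κ) (hμ : n + 2 * κ < 2 * μ) (hc : c * conj c = 1)
    (hEper : ∀ τ, E (τ + 2 * Real.pi) = E τ)
    (hE : ∀ τ, HasDerivAt E (I * zz τ * (μ * E τ + κ * H τ)) τ)
    (hH : ∀ τ, H τ = c * conj (zz τ) ^ (n + 1) * conj (E τ)) (hE0 : E 0 ≠ 0) :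
    ∃ a₀ : ℂ, a₀ ≠ 0 ∧ ∃ C S : ℝ, Decay κ μ n C S ∧ ∀ τ, E τ = a₀ * E0 κ μ n (zz τ) +
      c * conj a₀ * conj (zz τ) ^ (n + 1) * conj (H0 κ μ n (zz τ)) := by
  have hn0 : (0 : ℝ) ≤ n := Nat.cast_nonneg n
  have hμ0 : 0 < μ := by linarith
  have hEc : Continuous E := continuous_iff_continuousAt.mpr fun τ => (hE τ).continuousAt
  have hzc := zz_cont
  have hHc : Continuous H := by
    have : H = fun τ => c * conj (zz τ) ^ (n + 1) * conj (E τ) := funext hH
    rw [this]
    exact (continuous_const.mul ((Complex.continuous_conj.comp hzc).pow _)).mul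
      (Complex.continuous_conj.comp hEc)
  have hR1 := co_rec_one hEper hHc hE
  have hR2 := co_rec_two hc hEper hHc hE hH
  have hblock := block hn hκ hμ hR1 hR2
  have hpos := pos_coeff hn hκ hμ hR1 hR2
  -- negative coefficients
  have hneg : ∀ j : ℕ, co E (-((n : ℤ) + 1) - j) = c * conj (co E 0) * (es κ μ n j).2 := by
    intro j
    have h1 := co_symm hH (j : ℤ)
    have h2 : c * conj (co H (j : ℤ)) = co E (-((n : ℤ) + 1) - j) := by
      rw [h1, map_mul, Complex.conj_conj]
      linear_combination (co E (-((n : ℤ) + 1) - j)) * hc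
    rw [← h2, (hpos j).2, map_mul, Complex.conj_ofReal]
    ring
  have hmid : ∀ k : ℕ, k < n → co E (-((k : ℤ) + 1)) = 0 := by
    intro k hk
    have h1 := (hblock (n - 1 - k) (by omega)).1
    have e : (-(n : ℤ) + ((n - 1 - k : ℕ) : ℤ)) = -((k : ℤ) + 1) := by
      omega
    rw [e] at h1
    exact h1
  -- a₀ ≠ 0
  have ha₀ : co E 0 ≠ 0 := by
    intro h0
    have hall : ∀ k : ℤ, co E k = 0 := by
      intro k
      rcases le_or_gt 0 k with hk | hk
      · obtain ⟨j, rfl⟩ := Int.eq_ofNat_of_zero_le hk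
        have := (hpos j).1
        rw [h0, zero_mul] at this
        exact this
      · obtain ⟨j, hj⟩ := Int.eq_ofNat_of_zero_le (show 0 ≤ -k - 1 by omega)
        have hk' : k = -((j : ℤ) + 1) := by omega
        rcases lt_or_ge j n with hjn | hjn
        · rw [hk']; exact hmid j hjn
        · obtain ⟨i, rfl⟩ := Nat.exists_eq_add_of_le hjn
          have h2 := hneg i
          rw [h0, map_zero, mul_zero, zero_mul] at h2
          rw [hk', ← h2]
          congr 1
          push_cast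
          ring
    have hs : Summable (fun k : ℤ => co E k) := by
      have : (fun k : ℤ => co E k) = fun _ => 0 := funext hall
      rw [this]; exact summable_zero
    have h1 := hasSum_fourier hEc hEper hs 0
    have h2 : HasSum (fun k : ℤ => co E k * Complex.exp (k * (0 : ℝ) * I)) 0 := by
      have : (fun k : ℤ => co E k * Complex.exp (k * (0 : ℝ) * I)) = fun _ => 0 := by
        funext k; rw [hall k, zero_mul]
      rw [this]; exact hasSum_zero
    exact hE0 (h1.unique h2)
  -- bounds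
  obtain ⟨M, hM⟩ : ∃ M, ∀ τ ∈ Icc 0 (2 * Real.pi), ‖E τ‖ ≤ M := by
    obtain ⟨M, hM⟩ := (isCompact_Icc (a := (0 : ℝ)) (b := 2 * Real.pi)).exists_bound_of_continuousOn
      hEc.continuousOn
    exact ⟨M, hM⟩
  have hznorm : ∀ τ, ‖zz τ‖ = 1 := fun τ => by unfold zz; exact Complex.norm_exp_ofReal_mul_I τ
  have hcnorm : ‖c‖ = 1 := by
    have h1 := congrArg norm hc
    rw [norm_mul, Complex.norm_conj, norm_one] at h1
    nlinarith [norm_nonneg c]
  have hHM : ∀ τ ∈ Icc 0 (2 * Real.pi), ‖H τ‖ ≤ M := by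
    intro τ hτ
    rw [hH τ, norm_mul, norm_mul, norm_pow, Complex.norm_conj, Complex.norm_conj, hcnorm,
      hznorm, one_pow, one_mul, one_mul]
    exact hM τ hτ
  have hdec := coeff_decay hκ hμ0 hR1 hR2 (co_bound hM) (co_bound hHM)
  have ha₀n : 0 < ‖co E 0‖ := norm_pos_iff.mpr ha₀
  have hDecay : Decay κ μ n (M / ‖co E 0‖) (μ + κ) := by
    refine ⟨by positivity, ?_, ?_⟩
    · intro k
      have h1 := (hdec k k le_rfl).1
      rw [(hpos k).1, norm_mul, Complex.norm_real, Real.norm_eq_abs] at h1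
      have : |(es κ μ n k).1| ≤ (M * (μ + κ) ^ k / k.factorial) / ‖co E 0‖ := by
        rw [le_div_iff₀ ha₀n]; linarith
      refine this.trans (le_of_eq ?_)
      field_simp
    · intro k
      have h1 := (hdec k k le_rfl).2
      rw [(hpos k).2, norm_mul, Complex.norm_real, Real.norm_eq_abs] at h1
      have : |(es κ μ n k).2| ≤ (M * (μ + κ) ^ k / k.factorial) / ‖co E 0‖ := by
        rw [le_div_iff₀ ha₀n]; linarith
      refine this.trans (le_of_eq ?_)
      field_simp
  -- the sum over ℤ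
  have hsum : ∀ τ : ℝ, HasSum (fun k : ℤ => co E k * Complex.exp (k * τ * I))
      (co E 0 * E0 κ μ n (zz τ) +
        c * conj (co E 0) * conj (zz τ) ^ (n + 1) * H0 κ μ n (conj (zz τ))) := by
    intro τ
    apply HasSum.of_nat_of_neg_add_one
    · have h1 := (hDecay.hasSum_E (zz τ)).mul_left (co E 0)
      refine h1.congr_fun ?_
      intro k
      rw [(hpos k).1, exp_nat_zz]
      ring
    · rw [← hasSum_nat_add_iff' n]
      have hz : ∑ i ∈ Finset.range n, co E (-((i : ℤ) + 1)) *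
          Complex.exp (((-((i : ℤ) + 1) : ℤ) : ℂ) * τ * I) = 0 := by
        apply Finset.sum_eq_zero
        intro i hi
        rw [hmid i (Finset.mem_range.mp hi), zero_mul]
      rw [hz, sub_zero]
      have h1 := (hDecay.hasSum_H (conj (zz τ))).mul_left
        (c * conj (co E 0) * conj (zz τ) ^ (n + 1))
      refine h1.congr_fun ?_
      intro k
      have e1 : (-(((k + n : ℕ) : ℤ) + 1)) = (-((n : ℤ) + 1) - k) := by push_cast; ring
      have e2 : (-(((k + n : ℕ) : ℤ) + 1)) = -((n + 1 + k : ℕ) : ℤ) := by push_cast; ring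
      have e3 : Complex.exp (((-(((k + n : ℕ) : ℤ) + 1) : ℤ) : ℂ) * τ * I) =
          conj (zz τ) ^ (n + 1 + k) := by
        rw [e2]; exact exp_neg_zz (n + 1 + k) τ
      rw [e3, e1, hneg k, pow_add]
      ring
  have hsummable : Summable (fun k : ℤ => co E k) := by
    have h1 := (hsum 0).summable
    refine h1.congr ?_
    intro k
    simp
  refine ⟨co E 0, ha₀, M / ‖co E 0‖, μ + κ, hDecay, ?_⟩
  intro τ
  have h1 := (hasSum_fourier hEc hEper hsummable τ).unique (hsum τ)
  rw [h1, H0_conj]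

/-- A continuous function with constant exponential is constant. -/
lemma const_of_exp_const {f : ℝ → ℂ} (hf : Continuous f) (h : ∀ τ, Complex.exp (f τ) =
    Complex.exp (f 0)) (τ : ℝ) : f τ = f 0 := by
  have hint : ∀ s, ∃ k : ℤ, f s = f 0 + k * (2 * Real.pi * I) := fun s =>
    Complex.exp_eq_exp_iff_exists_int.mp (h s)
  set u : ℝ → ℝ := fun s => (f s - f 0).im / (2 * Real.pi) with hu
  have huc : Continuous u := by
    rw [hu]
    exact (Complex.continuous_im.comp (hf.sub continuous_const)).div_const _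
  have huint : ∀ s, ∃ k : ℤ, u s = k := by
    intro s
    obtain ⟨k, hk⟩ := hint s
    refine ⟨k, ?_⟩
    simp only [hu]
    rw [hk]
    have hpi := Real.pi_ne_zero
    simp
  have hu0 : u 0 = 0 := by simp [hu]
  have huτ : u τ = 0 := by
    by_contra hne
    obtain ⟨k, hk⟩ := huint τ
    have hk0 : k ≠ 0 := by
      intro h0; rw [h0] at hk; exact hne (by simpa using hk)
    have hiv : ∃ s, |u s| = 1 / 2 := by
      have hc : Continuous (fun s => |u s|) := huc.abs
      have hk1 : (1 : ℝ) ≤ |u τ| := by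
        rw [hk, ← Int.cast_abs]
        exact_mod_cast Int.one_le_abs hk0
      exact mem_range_of_exists_le_of_exists_ge hc ⟨0, by rw [hu0]; norm_num⟩ ⟨τ, by linarith⟩
    obtain ⟨s, hs⟩ := hiv
    obtain ⟨j, hj⟩ := huint s
    rw [hj, ← Int.cast_abs] at hs
    have h2 : (2 : ℝ) * ((|j| : ℤ) : ℝ) = 1 := by rw [hs]; norm_num
    have h3 : (2 : ℤ) * |j| = 1 := by exact_mod_cast h2
    omega
  obtain ⟨k, hk⟩ := hint τ
  have hk' : u τ = k := by
    simp only [hu]
    rw [hk]
    have hpi := Real.pi_ne_zero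
    simp
  rw [huτ] at hk'
  have : k = 0 := by exact_mod_cast hk'.symm
  rw [hk, this]
  simp

/-- The parity argument. -/
theorem parity {L : ℝ → ℂ} {a₀ : ℂ} {C S : ℝ} (hL : Continuous L)
    (hLper : ∀ τ, L (τ + 2 * Real.pi) = L τ + 2 * Real.pi * I) (ha₀ : a₀ ≠ 0)
    (hDec : Decay κ μ n C S) (hcn : ‖c‖ = 1)
    (hdec : ∀ τ, Complex.exp (L τ) = a₀ * E0 κ μ n (zz τ) +
      c * conj a₀ * conj (zz τ) ^ (n + 1) * conj (H0 κ μ n (zz τ)))
    (hD : ∀ τ, ‖H0 κ μ n (zz τ)‖ < ‖E0 κ μ n (zz τ)‖) (h1 : 0 < eR κ μ n 1)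
    (h2 : 0 < eR κ μ n (-1)) : False := by
  have hEne : ∀ τ, E0 κ μ n (zz τ) ≠ 0 := by
    intro τ h0
    have := hD τ
    rw [h0, norm_zero] at this
    exact absurd this (not_lt.mpr (norm_nonneg _))
  have hne : ∀ τ, a₀ * E0 κ μ n (zz τ) ≠ 0 := fun τ => mul_ne_zero ha₀ (hEne τ)
  have hE0c : Continuous (fun τ => E0 κ μ n (zz τ)) := by
    have : Continuous (E0 κ μ n) := continuous_iff_continuousAt.mpr fun z =>
      (hDec.hasDerivAt_E z).continuousAt
    exact this.comp zz_cont
  set w : ℝ → ℂ := fun τ => Complex.exp (L τ) / (a₀ * E0 κ μ n (zz τ)) with hw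
  have hwc : Continuous w := (Complex.continuous_exp.comp hL).div
    (continuous_const.mul hE0c) hne
  have hznorm : ∀ τ, ‖zz τ‖ = 1 := fun τ => by unfold zz; exact Complex.norm_exp_ofReal_mul_I τ
  have hwnorm : ∀ τ, ‖w τ - 1‖ < 1 := by
    intro τ
    have e : w τ - 1 = c * conj a₀ * conj (zz τ) ^ (n + 1) * conj (H0 κ μ n (zz τ)) /
        (a₀ * E0 κ μ n (zz τ)) := by
      simp only [hw]
      rw [hdec τ, add_div, div_self (hne τ)]
      ring
    rw [e, norm_div, norm_mul, norm_mul, norm_mul, norm_mul, norm_pow, Complex.norm_conj,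
      Complex.norm_conj, Complex.norm_conj, hznorm, hcn, one_pow, one_mul, mul_one]
    rw [div_lt_one (by
      apply mul_pos (norm_pos_iff.mpr ha₀) (norm_pos_iff.mpr (hEne τ)))]
    exact mul_lt_mul_of_pos_left (hD τ) (norm_pos_iff.mpr ha₀)
  have hwslit : ∀ τ, w τ ∈ Complex.slitPlane := by
    intro τ
    left
    have h3 := Complex.abs_re_le_norm (w τ - 1)
    have h4 := hwnorm τ
    rw [Complex.sub_re, Complex.one_re] at h3
    have := (abs_le.mp h3).1
    linarith
  set Λ : ℝ → ℂ := fun τ => L τ - Complex.log (w τ) with hΛ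
  have hΛc : Continuous Λ := hL.sub (hwc.clog hwslit)
  have hwne : ∀ τ, w τ ≠ 0 := fun τ => Complex.slitPlane_ne_zero (hwslit τ)
  have hΛexp : ∀ τ, Complex.exp (Λ τ) = a₀ * E0 κ μ n (zz τ) := by
    intro τ
    simp only [hΛ]
    rw [Complex.exp_sub, Complex.exp_log (hwne τ)]
    simp only [hw]
    have := hne τ
    have := Complex.exp_ne_zero (L τ)
    field_simp
  have hzper : ∀ τ, zz (τ + 2 * Real.pi) = zz τ := by
    intro τ
    unfold zz
    have : (((τ + 2 * Real.pi : ℝ) : ℂ) * I) = (τ : ℂ) * I + 2 * Real.pi * I := by push_cast; ring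
    rw [this, Complex.exp_add, Complex.exp_two_pi_mul_I, mul_one]
  have hwper : ∀ τ, w (τ + 2 * Real.pi) = w τ := by
    intro τ
    simp only [hw]
    rw [hzper, hLper, Complex.exp_add, Complex.exp_two_pi_mul_I, mul_one]
  have hΛper : ∀ τ, Λ (τ + 2 * Real.pi) = Λ τ + 2 * Real.pi * I := by
    intro τ
    simp only [hΛ]
    rw [hwper, hLper]
    ring
  have hzrefl : ∀ τ, zz (2 * Real.pi - τ) = conj (zz τ) := by
    intro τ
    rw [conj_zz]
    unfold zz
    have : (((2 * Real.pi - τ : ℝ) : ℂ) * I) = 2 * Real.pi * I + (-(τ * I)) := by push_cast; ring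
    rw [this, Complex.exp_add, Complex.exp_two_pi_mul_I, one_mul]
  set f : ℝ → ℂ := fun τ => Λ (2 * Real.pi - τ) - conj (Λ τ) with hf
  have hfc : Continuous f :=
    (hΛc.comp (continuous_const.sub continuous_id)).sub (Complex.continuous_conj.comp hΛc)
  have hca : conj a₀ ≠ 0 := by simpa using ha₀
  have hfexp : ∀ τ, Complex.exp (f τ) = a₀ / conj a₀ := by
    intro τ
    simp only [hf]
    rw [Complex.exp_sub, hΛexp, hzrefl, E0_conj, Complex.exp_conj, hΛexp, map_mul]
    have : conj (E0 κ μ n (zz τ)) ≠ 0 := by simpa using hEne τ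
    field_simp
  have hconst := const_of_exp_const hfc (fun τ => by rw [hfexp, hfexp]) Real.pi
  have e1 : f Real.pi = 2 * (Λ Real.pi).im * I := by
    simp only [hf]
    have : 2 * Real.pi - Real.pi = Real.pi := by ring
    rw [this, Complex.sub_conj]
    push_cast
    ring
  have e2 : f 0 = 2 * (Λ 0).im * I + 2 * Real.pi * I := by
    simp only [hf]
    have : 2 * Real.pi - 0 = 0 + 2 * Real.pi := by ring
    rw [this, hΛper, add_sub_right_comm, Complex.sub_conj]
    push_cast
    ring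
  rw [e1, e2] at hconst
  have him : (Λ Real.pi).im = (Λ 0).im + Real.pi := by
    have h3 : (((Λ Real.pi).im : ℝ) : ℂ) = (((Λ 0).im + Real.pi : ℝ) : ℂ) := by
      have h4 : (2 * I) * (((Λ Real.pi).im : ℝ) : ℂ) = (2 * I) * (((Λ 0).im + Real.pi : ℝ) : ℂ) := by
        push_cast
        linear_combination hconst
      have h5 : (2 * I : ℂ) ≠ 0 := by simp
      exact mul_left_cancel₀ h5 h4
    exact_mod_cast h3
  set r : ℝ := (Λ Real.pi).re - (Λ 0).re with hr
  have hΛπ : Λ Real.pi = Λ 0 + r + Real.pi * I := by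
    apply Complex.ext
    · simp [hr]
    · simp [him]
  have h3 := hΛexp Real.pi
  rw [hΛπ, Complex.exp_add, Complex.exp_add, hΛexp, Complex.exp_pi_mul_I, zz_zero, zz_pi] at h3
  have h4 : E0 κ μ n 1 = (eR κ μ n 1 : ℂ) := by
    have := E0_eq_eR κ μ n 1
    simpa using this
  have h5 : E0 κ μ n (-1) = (eR κ μ n (-1) : ℂ) := by
    have := E0_eq_eR κ μ n (-1)
    simpa using this
  rw [h4, h5] at h3
  have h6 : ((-(eR κ μ n 1 * Real.exp r) : ℝ) : ℂ) = ((eR κ μ n (-1) : ℝ) : ℂ) := by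
    apply mul_left_cancel₀ ha₀
    rw [← h3]
    push_cast
    ring
  have h7 : -(eR κ μ n 1 * Real.exp r) = eR κ μ n (-1) := by exact_mod_cast h6
  have h8 := mul_pos h1 (Real.exp_pos r)
  linarith

end main

end Pool.Agent.Z26.Jos
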