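import Mathlib
import Pool.Agent.Z26.Jos.Jos4

set_option autoImplicit false

/-! # The half-period estimate -/

namespace Pool.Agent.Z26.Jos

open Filter Topology Set

section half

variable {l m a : ℝ}

lemma half_setup (h1 : l - a < m) (h2 : a < l + m) :
    0 < m ∧ -1 < (a - l) / m ∧ (a - l) / m < 1 := by
  have hm : 0 < m := by linarith
  refine ⟨hm, ?_, ?_⟩
  · rw [lt_div_iff₀ hm]; linarith
  · rw [div_lt_one hm]; linarith

lemma tau_mem (h1 : l - a < m) (h2 : a < l + m) :
    0 < Real.arccos ((a - l) / m) ∧ Real.arccos ((a - l) / m) < Real.pi := by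
  obtain ⟨hm, hlo, hhi⟩ := half_setup h1 h2
  refine ⟨Real.arccos_pos.mpr hhi, ?_⟩
  rcases lt_or_eq_of_le (Real.arccos_le_pi ((a - l) / m)) with h | h
  · exact h
  · have := Real.arccos_eq_pi.mp h
    linarith

lemma FF_tau (h1 : l - a < m) (h2 : a < l + m) :
    FF l m (Real.arccos ((a - l) / m)) = a := by
  obtain ⟨hm, hlo, hhi⟩ := half_setup h1 h2
  unfold FF
  rw [Real.cos_arccos hlo.le hhi.le]
  field_simp
  ring

lemma FF_neg (t : ℝ) : FF l m (-t) = FF l m t := by unfold FF; rw [Real.cos_neg]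

lemma FF_gt (h1 : l - a < m) (h2 : a < l + m) {t : ℝ}
    (ht : t ∈ Ioo (-Real.arccos ((a - l) / m)) (Real.arccos ((a - l) / m))) :
    a < FF l m t := by
  obtain ⟨hm, hlo, hhi⟩ := half_setup h1 h2
  have htau := tau_mem h1 h2
  rw [← FF_tau h1 h2]
  unfold FF
  have : Real.cos (Real.arccos ((a - l) / m)) < Real.cos t := by
    rw [← Real.cos_abs t]
    apply Real.cos_lt_cos_of_nonneg_of_le_pi (abs_nonneg t) htau.2.le
    exact abs_lt.mpr ht
  have := mul_lt_mul_of_pos_left this hm
  linarith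

/-- The half-period estimate. -/
theorem half_le (ha : 0 < a) (hl : 0 ≤ l) (h1 : l - a < m) (h2 : a < l + m) (h3 : m ≤ l + a)
    {θ : ℝ → ℝ} (hθ : ∀ τ, HasDerivAt θ (FF l m τ - a * Real.cos (θ τ)) τ)
    (h0 : θ (-Real.arccos ((a - l) / m)) = 0) :
    W (RR l m a 0) (θ 0) ≤ Real.pi * l + Real.pi / 2 + 1 := by
  obtain ⟨hm, hlo, hhi⟩ := half_setup h1 h2
  have htau := tau_mem h1 h2
  have hFtau := FF_tau h1 h2
  have hFgt := fun t ht => FF_gt h1 h2 (t := t) ht
  generalize hτ₁ : Real.arccos ((a - l) / m) = τ₁ at *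
  have hθc : Continuous θ := continuous_iff_continuousAt.mpr fun t => (hθ t).continuousAt
  have hAc : Continuous (AA l m a) := by unfold AA FF; fun_prop
  -- the time t₀
  set S : Set ℝ := Icc (-τ₁) 0 ∩ {t | a * (-(m * Real.sin t)) ≤ AA l m a t ^ 3} with hS
  have hSc : IsCompact S := by
    apply IsCompact.inter_right isCompact_Icc
    exact isClosed_le (by fun_prop) (by fun_prop)
  have h0S : (0 : ℝ) ∈ S := by
    refine ⟨⟨by linarith, le_rfl⟩, ?_⟩
    simp only [mem_ofPred_eq, Real.sin_zero, mul_zero, neg_zero]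
    have : 0 ≤ AA l m a 0 := Real.sqrt_nonneg _
    positivity
  have ht₀ : sInf S ∈ S := hSc.sInf_mem ⟨0, h0S⟩
  set t₀ := sInf S with ht₀def
  have hbelow : ∀ t ∈ Ico (-τ₁) t₀, AA l m a t ^ 3 < a * (-(m * Real.sin t)) := by
    intro t ht
    by_contra hcon
    push Not at hcon
    have : t ∈ S := ⟨⟨ht.1, ht.2.le.trans ht₀.1.2⟩, hcon⟩
    have := csInf_le hSc.bddBelow this
    exact absurd this (not_le.mpr ht.2)
  have hne : -τ₁ < t₀ := by
    rcases lt_or_eq_of_le ht₀.1.1 with h | h
    · exact h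
    · exfalso
      have h5 := ht₀.2
      rw [← h] at h5
      have hA0 : AA l m a (-τ₁) = 0 := by
        unfold AA
        rw [FF_neg, hFtau]
        simp
      simp only [mem_ofPred_eq, hA0] at h5
      have hs : 0 < Real.sin τ₁ := Real.sin_pos_of_pos_of_lt_pi htau.1 htau.2
      rw [Real.sin_neg] at h5
      have : 0 < a * (-(m * -Real.sin τ₁)) := by
        have : a * (-(m * -Real.sin τ₁)) = a * m * Real.sin τ₁ := by ring
        rw [this]; positivity
      norm_num at h5
      linarith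
  have ht₀0 : t₀ ≤ 0 := ht₀.1.2
  have hFge : ∀ t ∈ Icc (-τ₁) 0, a ≤ FF l m t := by
    intro t ht
    rcases lt_or_eq_of_le ht.1 with h | h
    · exact (hFgt t ⟨h, by linarith [ht.2]⟩).le
    · rw [← h, FF_neg, hFtau]
  -- step 3
  have hq : ∀ t ∈ Icc (-τ₁) t₀, a ≤ FF l m t * Real.cos (θ t) := by
    have key := image_le_of_deriv_right_lt_deriv_boundary'
      (f := fun t => a - FF l m t * Real.cos (θ t))
      (f' := fun t => -(-(m * Real.sin t) * Real.cos (θ t) + FF l m t * (-Real.sin (θ t) *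
        (FF l m t - a * Real.cos (θ t)))))
      (a := -τ₁) (b := t₀) (B := fun _ => 0) (B' := fun _ => 0)
      (by
        have : Continuous (FF l m) := by unfold FF; fun_prop
        fun_prop)
      (fun t _ => (((hasDerivAt_FF l m t).mul (hθ t).cos).const_sub a).hasDerivWithinAt)
      (by rw [h0, FF_neg, hFtau]; simp)
      continuousOn_const (fun t _ => hasDerivWithinAt_const _ _ _)
      (by
        intro t ht heq
        have hF : a ≤ FF l m t := hFge t ⟨ht.1, ht.2.le.trans ht₀0⟩
        have hF0 : 0 < FF l m t := lt_of_lt_of_le ha hF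
        have hlt := hbelow t ht
        have hA2 := AA_sq ha hF
        have hA0 : 0 ≤ AA l m a t := Real.sqrt_nonneg _
        have hFc : FF l m t * Real.cos (θ t) = a := by linarith
        have hsc := Real.sin_sq_add_cos_sq (θ t)
        have hFs : FF l m t * Real.sin (θ t) ≤ AA l m a t := by
          have : |FF l m t * Real.sin (θ t)| ≤ AA l m a t := by
            apply Real.abs_le_sqrt
            have : (FF l m t * Real.cos (θ t)) ^ 2 = a ^ 2 := by rw [hFc]
            nlinarith
          exact (abs_le.mp this).2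
        -- F * f' < 0
        have hval : FF l m t * (-(-(m * Real.sin t) * Real.cos (θ t) + FF l m t *
            (-Real.sin (θ t) * (FF l m t - a * Real.cos (θ t)))))
            = -(a * (-(m * Real.sin t))) + (FF l m t * Real.sin (θ t)) * AA l m a t ^ 2 := by
          rw [hA2]
          linear_combination (m * Real.sin t - FF l m t * Real.sin (θ t) * a) * hFc
        have hprod : (FF l m t * Real.sin (θ t)) * AA l m a t ^ 2 ≤ AA l m a t ^ 3 := by
          have := mul_le_mul_of_nonneg_right hFs (sq_nonneg (AA l m a t))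
          calc _ ≤ _ := this
            _ = _ := by ring
        have hneg : FF l m t * (-(-(m * Real.sin t) * Real.cos (θ t) + FF l m t *
            (-Real.sin (θ t) * (FF l m t - a * Real.cos (θ t))))) < FF l m t * 0 := by
          rw [hval, mul_zero]; linarith
        exact lt_of_mul_lt_mul_left hneg hF0.le)
    intro t ht
    have := key ht
    linarith
  -- step 4
  have hcospos : ∀ t ∈ Icc (-τ₁) t₀, 0 < Real.cos (θ t) := by
    intro t ht
    have h5 := hq t ht
    have hF : a ≤ FF l m t := hFge t ⟨ht.1, ht.2.trans ht₀0⟩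
    by_contra hcon
    push Not at hcon
    have : FF l m t * Real.cos (θ t) ≤ 0 :=
      mul_nonpos_of_nonneg_of_nonpos (by linarith) hcon
    linarith
  have hrange : θ t₀ ∈ Ioo (-(Real.pi / 2)) (Real.pi / 2) := by
    constructor
    · by_contra hcon
      push Not at hcon
      have hiv := intermediate_value_Icc' hne.le hθc.continuousOn
      have hmem : -(Real.pi / 2) ∈ Icc (θ t₀) (θ (-τ₁)) := by
        refine ⟨hcon, ?_⟩
        rw [h0]; linarith [Real.pi_pos]
      obtain ⟨s, hs, hs'⟩ := hiv hmem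
      have := hcospos s hs
      rw [hs', Real.cos_neg, Real.cos_pi_div_two] at this
      exact lt_irrefl _ this
    · by_contra hcon
      push Not at hcon
      have hiv := intermediate_value_Icc hne.le hθc.continuousOn
      have hmem : (Real.pi / 2) ∈ Icc (θ (-τ₁)) (θ t₀) := by
        refine ⟨?_, hcon⟩
        rw [h0]; linarith [Real.pi_pos]
      obtain ⟨s, hs, hs'⟩ := hiv hmem
      have := hcospos s hs
      rw [hs', Real.cos_pi_div_two] at this
      exact lt_irrefl _ this
  -- step 5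
  have hI : ∀ t ∈ Icc t₀ 0, a < FF l m t ∧ t ∈ Ioc (-Real.pi) 0 := by
    intro t ht
    refine ⟨hFgt t ⟨by linarith [ht.1], by linarith [ht.2]⟩, by linarith [ht.1], ht.2⟩
  have hV := le_of_deriv_nonpos (s := t₀) (t := 0)
    (f := fun t => W (RR l m a t) (θ t) + rr l m a t *
      ((FF l m t + a) * (1 - Real.cos (θ t)) / (FF l m t - a * Real.cos (θ t))) - Psi l m a t)
    (f' := fun t => ((1 - RR l m a t ^ 2) * (FF l m t - a * Real.cos (θ t)) +
        2 * Real.sin (θ t) * ((-(m * Real.sin t) -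
          FF l m t * (-(m * Real.sin t)) / AA l m a t) / a)) /
        (1 - 2 * RR l m a t * Real.cos (θ t) + RR l m a t ^ 2) +
      ((-(a * ((FF l m t - l) * (FF l m t ^ 2 - a ^ 2) + 3 * FF l m t * (-(m * Real.sin t)) ^ 2)
        / AA l m a t ^ 5)) *
        ((FF l m t + a) * (1 - Real.cos (θ t)) / (FF l m t - a * Real.cos (θ t))) +
      rr l m a t * (-(a * Real.sin (θ t) ^ 2 * (-(m * Real.sin t)) /
        (FF l m t - a * Real.cos (θ t)) ^ 2)
        + (FF l m t ^ 2 - a ^ 2) * Real.sin (θ t) / (FF l m t - a * Real.cos (θ t)))) -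
      ((1 - (a + (l - m)) / (2 * a)) * Real.sqrt (FF l m t - a) +
      (a + (l - m)) / (2 * a) * Real.sqrt (FF l m t + a)) *
        (Real.sqrt (2 * m) * Real.cos (t / 2)))
    ht₀0
    (by
      intro t ht
      obtain ⟨hF, htI⟩ := hI t ht
      obtain ⟨hr0, hr1⟩ := RR_mem ha hF
      exact ((hasDerivAt_W hr0.le hr1 (hasDerivAt_RR ha hF) (hθ t)).add
        ((hasDerivAt_rr ha hF).mul (hasDerivAt_G ha hF (hθ t)))).sub (hasDerivAt_Psi ha hm.le hF))
    (by
      intro t ht
      obtain ⟨hF, htI⟩ := hI t (Ioo_subset_Icc_self ht)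
      have hA := AA_pos ha hF
      have hA2 := AA_sq ha hF.le
      have hcos2 : 0 ≤ Real.cos (t / 2) :=
        Real.cos_nonneg_of_mem_Icc ⟨by linarith [htI.1], by linarith [htI.2, Real.pi_pos]⟩
      have hPsi := AA_le_Psi' ha hm.le h1.le h3 hF hcos2
      have hF1 : 0 ≤ -(m * Real.sin t) := by
        have := Real.sin_nonpos_of_nonpos_of_neg_pi_le htI.2 htI.1.le
        nlinarith
      have hW := W_alg (F := FF l m t) (A := AA l m a t) (s := Real.sin (θ t))
        (c := Real.cos (θ t)) (F1 := -(m * Real.sin t)) ha hA hF hA2 (Real.cos_le_one _)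
      have hRR : RR l m a t = (FF l m t - AA l m a t) / a := rfl
      rw [← hRR] at hW
      rw [hW]
      have hN : 0 < FF l m t - a * Real.cos (θ t) := by
        have := Real.cos_le_one (θ t)
        nlinarith
      have hG : 0 ≤ (FF l m t + a) * (1 - Real.cos (θ t)) / (FF l m t - a * Real.cos (θ t)) := by
        apply div_nonneg _ hN.le
        apply mul_nonneg (by linarith) (by linarith [Real.cos_le_one (θ t)])
      have hr' : 0 ≤ a * ((FF l m t - l) * (FF l m t ^ 2 - a ^ 2) +
          3 * FF l m t * (-(m * Real.sin t)) ^ 2) / AA l m a t ^ 5 := by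
        apply div_nonneg _ (by positivity)
        apply mul_nonneg ha.le
        apply r_alg ha hl hm.le h1 hF
        have hsc := Real.sin_sq_add_cos_sq t
        unfold FF
        linear_combination m ^ 2 * hsc
      have e1 : rr l m a t * (-(a * Real.sin (θ t) ^ 2 * (-(m * Real.sin t)) /
          (FF l m t - a * Real.cos (θ t)) ^ 2)
          + (FF l m t ^ 2 - a ^ 2) * Real.sin (θ t) / (FF l m t - a * Real.cos (θ t)))
          = a * (-(m * Real.sin t)) * Real.sin (θ t) /
              (AA l m a t * (FF l m t - a * Real.cos (θ t))) -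
            (a * (-(m * Real.sin t)) * Real.sin (θ t)) ^ 2 /
              (AA l m a t ^ 3 * (FF l m t - a * Real.cos (θ t)) ^ 2) := by
        unfold rr
        rw [← hA2]
        have hNne := hN.ne'
        have hAne := hA.ne'
        generalize FF l m t - a * Real.cos (θ t) = N at *
        field_simp
        ring
      have e2 : 0 ≤ (a * (-(m * Real.sin t)) * Real.sin (θ t)) ^ 2 /
              (AA l m a t ^ 3 * (FF l m t - a * Real.cos (θ t)) ^ 2) := by positivity
      have e3 := mul_nonneg hr' hG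
      rw [e1]
      linarith)
  have hrr0 : rr l m a 0 = 0 := by simp [rr]
  rw [hrr0, Psi_zero, zero_mul, add_zero, sub_zero] at hV
  obtain ⟨hF, htI⟩ := hI t₀ ⟨le_rfl, ht₀0⟩
  have hA := AA_pos ha hF
  have hqt := hq t₀ ⟨hne.le, le_rfl⟩
  have hWt := W_le_of_barrier ha hF hrange hqt
  have hPt := Psi_ge ha hm.le h1.le h2 h3 hF.le ⟨htI.1.le, htI.2⟩
  have hN : 0 < FF l m t₀ - a * Real.cos (θ t₀) := by
    have := Real.cos_le_one (θ t₀)
    nlinarith
  have hG0 : 0 ≤ (FF l m t₀ + a) * (1 - Real.cos (θ t₀)) / (FF l m t₀ - a * Real.cos (θ t₀)) := by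
    apply div_nonneg _ hN.le
    apply mul_nonneg (by linarith) (by linarith [Real.cos_le_one (θ t₀)])
  have hG1 : (FF l m t₀ + a) * (1 - Real.cos (θ t₀)) / (FF l m t₀ - a * Real.cos (θ t₀)) ≤ 1 := by
    rw [div_le_one hN]
    nlinarith
  have hr1 : rr l m a t₀ ≤ 1 := by
    unfold rr
    rw [div_le_one (by positivity)]
    exact ht₀.2
  have hfin : rr l m a t₀ * ((FF l m t₀ + a) * (1 - Real.cos (θ t₀)) /
      (FF l m t₀ - a * Real.cos (θ t₀))) ≤ 1 := by
    calc _ ≤ 1 * ((FF l m t₀ + a) * (1 - Real.cos (θ t₀)) /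
      (FF l m t₀ - a * Real.cos (θ t₀))) := mul_le_mul_of_nonneg_right hr1 hG0
      _ ≤ 1 := by rw [one_mul]; exact hG1
  linarith

/-- `W` fixes multiples of `π` and is monotone. -/
lemma W_mono {ρ : ℝ} (h0 : 0 ≤ ρ) (h1 : ρ < 1) : Monotone (W ρ) := by
  have hd : ∀ θ, HasDerivAt (W ρ) (((1 - ρ ^ 2) * 1 + 2 * Real.sin θ * 0) /
        (1 - 2 * ρ * Real.cos θ + ρ ^ 2)) θ := fun θ =>
    hasDerivAt_W (ρ := fun _ => ρ) (θ := fun θ => θ) (t := θ) h0 h1 (hasDerivAt_const θ ρ)
      (hasDerivAt_id' θ)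
  apply monotone_of_deriv_nonneg (fun θ => (hd θ).differentiableAt)
  intro θ
  rw [(hd θ).deriv]
  have := D_pos h0 h1 θ
  apply div_nonneg _ this.le
  nlinarith

lemma W_nat_mul_pi (ρ : ℝ) (k : ℕ) : W ρ (k * Real.pi) = k * Real.pi := by
  unfold W
  rw [Real.sin_nat_mul_pi]
  simp

/-- Conclusion of the half-period estimate. -/
theorem half_lt (ha : 0 < a) (n : ℕ) (hl : l = n) (h1 : l - a < m) (h2 : a < l + m)
    (h3 : m ≤ l + a) {θ : ℝ → ℝ} (hθ : ∀ τ, HasDerivAt θ (FF l m τ - a * Real.cos (θ τ)) τ)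
    (h0 : θ (-Real.arccos ((a - l) / m)) = 0) : θ 0 < Real.pi * (l + 1) := by
  by_contra hcon
  push Not at hcon
  obtain ⟨hm, hlo, hhi⟩ := half_setup h1 h2
  have hF : a < FF l m 0 := by unfold FF; rw [Real.cos_zero]; linarith
  obtain ⟨hr0, hr1⟩ := RR_mem ha hF
  have hl0 : 0 ≤ l := by rw [hl]; positivity
  have h5 := half_le ha hl0 h1 h2 h3 hθ h0
  have h6 : W (RR l m a 0) (((n + 1 : ℕ) : ℝ) * Real.pi) ≤ W (RR l m a 0) (θ 0) := by
    apply W_mono hr0.le hr1
    push_cast
    rw [← hl]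
    linarith
  rw [W_nat_mul_pi] at h6
  push_cast at h6
  rw [← hl] at h6
  have := Real.pi_gt_three
  nlinarith

end half

end Pool.Agent.Z26.Jos
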