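import Mathlib
import Pool.Agent.Z26.Jos.Jos1
import Pool.Agent.Z26.Jos.Jos5

set_option autoImplicit false

/-! # The region `m ≤ l + a`: the displacement stays below `2π(l+2)` -/

namespace Pool.Agent.Z26.Jos

open Filter Topology Set NNReal

/-- Local comparison. -/
theorem comparison_Icc (F : ℝ → ℝ → ℝ) (K : ℝ≥0) (hK : ∀ t, LipschitzWith K (F t))
    {z w z' w' : ℝ → ℝ} {a b : ℝ} (hab : a ≤ b) (hz : ∀ t ∈ Icc a b, HasDerivAt z (z' t) t)
    (hw : ∀ t ∈ Icc a b, HasDerivAt w (w' t) t)
    (hz' : ∀ t ∈ Icc a b, z' t ≤ F t (z t)) (hw' : ∀ t ∈ Icc a b, F t (w t) ≤ w' t)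
    (h0 : z a ≤ w a) : z b ≤ w b := by
  have key : ∀ ε : ℝ, 0 < ε → z b ≤ w b + ε * Real.exp ((K + 1) * (b - a)) := by
    intro ε hε
    have hexp : ∀ t, HasDerivAt (fun t => ε * Real.exp (((K : ℝ) + 1) * (t - a)))
        (ε * (Real.exp (((K : ℝ) + 1) * (t - a)) * ((K : ℝ) + 1))) t := by
      intro t
      have h1 : HasDerivAt (fun t => ((K : ℝ) + 1) * (t - a)) ((K : ℝ) + 1) t := by
        simpa using ((hasDerivAt_id t).sub_const a).const_mul ((K : ℝ) + 1)
      exact (h1.exp).const_mul ε
    have hB : ∀ t ∈ Icc a b, HasDerivAt (fun t => w t + ε * Real.exp (((K : ℝ) + 1) * (t - a)))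
        (w' t + ε * (Real.exp (((K : ℝ) + 1) * (t - a)) * ((K : ℝ) + 1))) t :=
      fun t ht => (hw t ht).add (hexp t)
    have := image_le_of_deriv_right_lt_deriv_boundary' (f := z) (f' := z') (a := a) (b := b)
      (B := fun t => w t + ε * Real.exp (((K : ℝ) + 1) * (t - a)))
      (B' := fun t => w' t + ε * (Real.exp (((K : ℝ) + 1) * (t - a)) * ((K : ℝ) + 1)))
      (fun t ht => (hz t ht).continuousAt.continuousWithinAt)
      (fun t ht => (hz t (Ico_subset_Icc_self ht)).hasDerivWithinAt)
      (by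
        simp only [sub_self, mul_zero, Real.exp_zero, mul_one]
        linarith)
      (fun t ht => (hB t ht).continuousAt.continuousWithinAt)
      (fun t ht => (hB t (Ico_subset_Icc_self ht)).hasDerivWithinAt)
      (by
        intro t ht heq
        have ht' := Ico_subset_Icc_self ht
        have e1 : 0 < ε * Real.exp (((K : ℝ) + 1) * (t - a)) := by positivity
        have h1 := hz' t ht'
        have h2 := hw' t ht'
        have h3 := (hK t).dist_le_mul (z t) (w t)
        rw [Real.dist_eq, Real.dist_eq] at h3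
        have h4 : |z t - w t| = ε * Real.exp (((K : ℝ) + 1) * (t - a)) := by
          rw [heq]
          simp only [add_sub_cancel_left]
          exact abs_of_pos e1
        rw [h4] at h3
        have h5 := le_abs_self (F t (z t) - F t (w t))
        nlinarith)
      (right_mem_Icc.mpr hab)
    exact this
  by_contra hcon
  push Not at hcon
  have hE : 0 < Real.exp (((K : ℝ) + 1) * (b - a)) := Real.exp_pos _
  have := key ((z b - w b) / (2 * Real.exp (((K : ℝ) + 1) * (b - a))))
    (div_pos (by linarith) (by positivity))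
  have e : (z b - w b) / (2 * Real.exp (((K : ℝ) + 1) * (b - a)))
      * Real.exp (((K : ℝ) + 1) * (b - a)) = (z b - w b) / 2 := by
    field_simp
  rw [e] at this
  linarith

variable {l m a : ℝ}

/-- Where the forcing is at most `a`, a solution cannot cross `π/2 + 2πk` upwards. -/
lemma barrier {x : ℝ → ℝ} (hx : IsSol l m a x) {s t : ℝ} (hst : s ≤ t)
    (hF : ∀ τ ∈ Icc s t, FF l m τ ≤ a) (k : ℤ) (h : x s ≤ Real.pi / 2 + k * (2 * Real.pi)) :
    x t ≤ Real.pi / 2 + k * (2 * Real.pi) := by
  refine comparison_Icc (fun t x => fld l m a t x) (Real.toNNReal |a|)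
    (fun t => fld_lip l m a t) (z := x) (w := fun _ => Real.pi / 2 + k * (2 * Real.pi))
    (w' := fun _ => 0) hst (fun t _ => hx t) (fun t _ => hasDerivAt_const _ _)
    (fun _ _ => le_rfl) ?_ h
  intro τ hτ
  have := hF τ hτ
  unfold fld
  unfold FF at this
  rw [Real.sin_add_int_mul_two_pi, Real.sin_pi_div_two]
  linarith

/-- Every real lies in `(π/2 + 2π(k-1), π/2 + 2πk]` for some integer `k`. -/
lemma exists_barrier (ξ : ℝ) : ∃ k : ℤ, ξ ≤ Real.pi / 2 + k * (2 * Real.pi) ∧
    Real.pi / 2 + k * (2 * Real.pi) < ξ + 2 * Real.pi := by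
  have hp : (0 : ℝ) < 2 * Real.pi := by positivity
  refine ⟨⌈(ξ - Real.pi / 2) / (2 * Real.pi)⌉, ?_, ?_⟩
  · have := Int.le_ceil ((ξ - Real.pi / 2) / (2 * Real.pi))
    rw [div_le_iff₀ hp] at this
    linarith
  · have := Int.ceil_lt_add_one ((ξ - Real.pi / 2) / (2 * Real.pi))
    have h2 := mul_lt_mul_of_pos_right this hp
    rw [add_mul, div_mul_cancel₀ _ hp.ne'] at h2
    linarith

/-- Case A. -/
lemma disp_lt_A (hl : 0 ≤ l) (hm : 0 ≤ m) (h : l + m ≤ a) (ξ : ℝ) :
    disp l m a ξ < 2 * Real.pi * (l + 2) := by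
  have hx := sol_isSol l m a ξ
  obtain ⟨k, hk1, hk2⟩ := exists_barrier ξ
  have h1 := barrier hx (s := 0) (t := 2 * Real.pi) (by positivity)
    (by
      intro τ _
      unfold FF
      have := mul_le_mul_of_nonneg_left (Real.cos_le_one τ) hm
      linarith) k (by rw [sol_zero]; exact hk1)
  unfold disp
  have : 0 ≤ 2 * Real.pi * l := by positivity
  have := Real.pi_pos
  nlinarith

/-- Case B. -/
lemma disp_lt_B (ha : 0 < a) (hm : 0 ≤ m) (h : m ≤ l - a) (ξ : ℝ) :
    disp l m a ξ < 2 * Real.pi * (l + 2) := by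
  have hx := sol_isSol l m a ξ
  have hx0 := sol_zero l m a ξ
  unfold disp
  generalize sol l m a ξ = x at *
  have hF : ∀ t, a ≤ FF l m t := by
    intro t
    unfold FF
    have := mul_le_mul_of_nonneg_left (Real.neg_one_le_cos t) hm
    linarith
  have hint : ∀ t, HasDerivAt (fun t => l * t + m * Real.sin t) (FF l m t) t := by
    intro t
    have h1 := ((hasDerivAt_id t).const_mul l).add ((Real.hasDerivAt_sin t).const_mul m)
    refine h1.congr_deriv ?_
    unfold FF; ring
  have hder : ∀ (e t : ℝ), HasDerivAt (fun t => x t + a * (-Real.cos (x t) + e) / FF l m t -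
      (l * t + m * Real.sin t)) (-(a ^ 2 * Real.sin (x t) ^ 2 / FF l m t) -
        a * (-(m * Real.sin t)) * (-Real.cos (x t) + e) / FF l m t ^ 2) t := by
    intro e t
    have hF0 : 0 < FF l m t := lt_of_lt_of_le ha (hF t)
    have h1 := ((hx t).add ((((hx t).cos.neg.add_const e).const_mul a).div (hasDerivAt_FF l m t)
      hF0.ne')).sub (hint t)
    refine h1.congr_deriv ?_
    have e1 : fld l m a t (x t) = FF l m t - a * Real.sin (x t) := by unfold fld FF; rfl
    rw [e1]
    have hne := hF0.ne'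
    clear h1
    simp only [Pi.neg_apply]
    generalize FF l m t = F at *
    generalize Real.sin (x t) = s at *
    generalize Real.cos (x t) = c at *
    field_simp
    ring
  have h1 := le_of_deriv_nonpos (s := 0) (t := Real.pi) Real.pi_pos.le
    (fun t _ => hder (-1) t) (by
      intro t ht
      have hF0 : 0 < FF l m t := lt_of_lt_of_le ha (hF t)
      have hs : 0 ≤ Real.sin t := Real.sin_nonneg_of_nonneg_of_le_pi ht.1.le ht.2.le
      have h2 : 0 ≤ a ^ 2 * Real.sin (x t) ^ 2 / FF l m t := by positivity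
      have h3 : 0 ≤ a * (-(m * Real.sin t)) * (-Real.cos (x t) + -1) / FF l m t ^ 2 := by
        have : a * (-(m * Real.sin t)) * (-Real.cos (x t) + -1)
            = a * (m * Real.sin t) * (1 + Real.cos (x t)) := by ring
        rw [this]
        have := Real.neg_one_le_cos (x t)
        have : 0 ≤ 1 + Real.cos (x t) := by linarith
        positivity
      linarith)
  have h2 := le_of_deriv_nonpos (s := Real.pi) (t := 2 * Real.pi) (by linarith [Real.pi_pos])
    (fun t _ => hder 1 t) (by
      intro t ht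
      have hF0 : 0 < FF l m t := lt_of_lt_of_le ha (hF t)
      have hs : Real.sin t ≤ 0 := by
        have h5 : Real.sin (t - 2 * Real.pi) = Real.sin t := Real.sin_sub_two_pi t
        rw [← h5]
        apply Real.sin_nonpos_of_nonpos_of_neg_pi_le <;> linarith [ht.1, ht.2]
      have h2 : 0 ≤ a ^ 2 * Real.sin (x t) ^ 2 / FF l m t := by positivity
      have h3 : 0 ≤ a * (-(m * Real.sin t)) * (-Real.cos (x t) + 1) / FF l m t ^ 2 := by
        have h4 : 0 ≤ -(m * Real.sin t) := by nlinarith
        have := Real.cos_le_one (x t)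
        have : 0 ≤ -Real.cos (x t) + 1 := by linarith
        positivity
      linarith)
  have hF0 : FF l m 0 = l + m := by unfold FF; rw [Real.cos_zero]; ring
  have hFpi : FF l m Real.pi = l - m := by unfold FF; rw [Real.cos_pi]; ring
  have hF2 : FF l m (2 * Real.pi) = l + m := by unfold FF; rw [Real.cos_two_pi]; ring
  rw [hF0, hFpi, Real.sin_pi, Real.sin_zero, hx0] at h1
  rw [hF2, hFpi, Real.sin_pi, Real.sin_two_pi] at h2
  have hlm : 0 < l - m := by linarith
  have hlp : 0 < l + m := by linarith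
  have e1 : a * (-Real.cos (x Real.pi) + 1) / (l - m) - a * (-Real.cos (x Real.pi) + -1) / (l - m)
      ≤ 2 := by
    have e : a * (-Real.cos (x Real.pi) + 1) / (l - m) -
        a * (-Real.cos (x Real.pi) + -1) / (l - m) = 2 * a / (l - m) := by ring
    rw [e, div_le_iff₀ hlm]
    linarith
  have e2 : a * (-Real.cos ξ + -1) / (l + m) ≤ 0 := by
    apply div_nonpos_of_nonpos_of_nonneg _ hlp.le
    nlinarith [Real.neg_one_le_cos ξ]
  have e3 : 0 ≤ a * (-Real.cos (x (2 * Real.pi)) + 1) / (l + m) := by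
    apply div_nonneg _ hlp.le
    nlinarith [Real.cos_le_one (x (2 * Real.pi))]
  have := Real.pi_gt_three
  nlinarith

/-- Case C. -/
lemma disp_lt_C (ha : 0 < a) (n : ℕ) (hl : l = n) (h1 : l - a < m) (h2 : a < l + m)
    (h3 : m ≤ l + a) (ξ : ℝ) : disp l m a ξ < 2 * Real.pi * (l + 2) := by
  by_contra hcon
  push Not at hcon
  have hx := sol_isSol l m a ξ
  have hx0 := sol_zero l m a ξ
  unfold disp at hcon
  generalize sol l m a ξ = x at *
  have htau := tau_mem h1 h2
  have hm := (half_setup h1 h2).1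
  have hFt := FF_tau h1 h2
  obtain ⟨y, hy, hy0⟩ := exists_sol l m a (-Real.arccos ((a - l) / m)) (Real.pi / 2)
  have hhalf := half_lt ha n hl h1 h2 h3 (θ := fun τ => y τ - Real.pi / 2)
    (by
      intro τ
      have := (hy τ).sub_const (Real.pi / 2)
      refine this.congr_deriv ?_
      unfold fld FF
      rw [Real.cos_sub_pi_div_two]) (by simp [hy0])
  generalize Real.arccos ((a - l) / m) = τ₁ at *
  -- comparison with the shift
  have hshift := IsSol.mono (hx.add_int ((n : ℤ) + 2)) hx.shift (s := 0) (by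
    simp only [zero_add]
    push_cast
    rw [← hl, hx0]
    linarith) τ₁ htau.1.le
  push_cast at hshift
  obtain ⟨k, hk1, hk2⟩ := exists_barrier (x τ₁)
  -- barrier on J
  have hJ := barrier hx (s := τ₁) (t := 2 * Real.pi - τ₁) (by linarith [htau.2])
    (by
      intro t ht
      rw [← hFt]
      unfold FF
      have : Real.cos t ≤ Real.cos τ₁ := by
        rcases le_total t Real.pi with h | h
        · exact Real.cos_le_cos_of_nonneg_of_le_pi htau.1.le h ht.1
        · have e : Real.cos t = Real.cos (2 * Real.pi - t) := by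
            rw [Real.cos_two_pi_sub]
          rw [e]
          exact Real.cos_le_cos_of_nonneg_of_le_pi htau.1.le (by linarith) (by linarith [ht.2])
      have := mul_le_mul_of_nonneg_left this hm.le
      linarith) k hk1
  -- the translated comparison solutions
  have hyt : ∀ j : ℤ, IsSol l m a (fun τ => y (τ - 2 * Real.pi) + j * (2 * Real.pi)) := by
    intro j
    have : IsSol l m a (fun τ => y (τ - 2 * Real.pi)) := by
      intro τ
      have h5 := HasDerivAt.comp_sub_const τ (2 * Real.pi) (hy (τ - 2 * Real.pi))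
      have e : fld l m a (τ - 2 * Real.pi) (y (τ - 2 * Real.pi))
          = fld l m a τ (y (τ - 2 * Real.pi)) := by
        unfold fld
        rw [Real.cos_sub_two_pi]
      rw [← e]
      exact h5
    exact this.add_int j
  have hu1 := IsSol.mono hx (hyt k) (s := 2 * Real.pi - τ₁) (by
    have e : 2 * Real.pi - τ₁ - 2 * Real.pi = -τ₁ := by ring
    rw [e, hy0]
    exact hJ) (2 * Real.pi) (by linarith [htau.1])
  -- the reflected solution
  have hz : IsSol l m a (fun τ => Real.pi - x (4 * Real.pi - τ)) := by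
    intro τ
    have h5 := (HasDerivAt.comp_const_sub (4 * Real.pi) τ (hx (4 * Real.pi - τ))).const_sub Real.pi
    refine h5.congr_deriv ?_
    rw [neg_neg]
    unfold fld
    rw [Real.sin_pi_sub]
    have : Real.cos (4 * Real.pi - τ) = Real.cos τ := by
      have e : 4 * Real.pi - τ = 2 * Real.pi + (2 * Real.pi - τ) := by ring
      rw [e, add_comm, Real.cos_add_two_pi, Real.cos_two_pi_sub]
    rw [this]
  have hu2 := IsSol.mono hz (hyt (-(k + n + 1))) (s := 2 * Real.pi - τ₁) (by
    have e : 2 * Real.pi - τ₁ - 2 * Real.pi = -τ₁ := by ring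
    have e2 : 4 * Real.pi - (2 * Real.pi - τ₁) = τ₁ + 2 * Real.pi := by ring
    rw [e, hy0, e2]
    push_cast
    nlinarith [Real.pi_pos]) (2 * Real.pi) (by linarith [htau.1])
  simp only [sub_self] at hu1 hu2
  have e3 : 4 * Real.pi - 2 * Real.pi = 2 * Real.pi := by ring
  rw [e3] at hu2
  push_cast at hu2
  have hpi := Real.pi_pos
  rw [hl] at hhalf
  nlinarith

/-- In the region `m ≤ l + a` all displacements are below `2π(l+2)`. -/
theorem disp_lt (ha : 0 < a) (n : ℕ) (hl : l = n) (hm : 0 ≤ m) (h3 : m ≤ l + a) (ξ : ℝ) :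
    disp l m a ξ < 2 * Real.pi * (l + 2) := by
  have hl0 : 0 ≤ l := by rw [hl]; positivity
  rcases le_or_gt (l + m) a with h | h
  · exact disp_lt_A hl0 hm h ξ
  · rcases le_or_gt m (l - a) with h' | h'
    · exact disp_lt_B ha hm h' ξ
    · exact disp_lt_C ha n hl h' h h3 ξ

end Pool.Agent.Z26.Jos
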