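import Mathlib
import Pool.Agent.Z26.Jos.Jos7
import Pool.Agent.Z26.Jos.Jos13

set_option autoImplicit false

/-! # No special solutions; the main theorem in rescaled form -/

namespace Pool.Agent.Z26.Jos

open Filter Topology Set Complex
open scoped ComplexConjugate

/-- There is no special solution above `m = l + a`. -/
theorem no_special {κ μ : ℝ} {n : ℕ} (hn : 1 ≤ n) (hκ : 0 < κ) (hμ : n + 2 * κ < 2 * μ)
    {x : ℝ → ℝ} (hx : IsSol n (2 * μ) (2 * κ) x)
    (hper : ∀ τ, x (τ + 2 * Real.pi) = x τ + ((n : ℤ) + 2 : ℤ) * (2 * Real.pi))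
    (hint : ∫ τ in (0 : ℝ)..(2 * Real.pi), Real.cos (x τ) = 0) : False := by
  have hn0 : (0 : ℝ) ≤ n := Nat.cast_nonneg n
  have hμ0 : 0 < μ := by linarith
  have hxc := hx.continuous
  set Cc : ℝ → ℝ := fun τ => ∫ s in (0 : ℝ)..τ, Real.cos (x s) with hCc
  have hcosc : Continuous (fun s => Real.cos (x s)) := Real.continuous_cos.comp hxc
  have hCd : ∀ τ, HasDerivAt Cc (Real.cos (x τ)) τ := fun τ =>
    (hcosc.integral_hasStrictDerivAt 0 τ).hasDerivAt
  have hC0 : Cc 0 = 0 := by simp [hCc]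
  have hcosper : Function.Periodic (fun s => Real.cos (x s)) (2 * Real.pi) := by
    intro s
    simp only
    rw [hper s, Real.cos_add_int_mul_two_pi]
  have hCper : ∀ τ, Cc (τ + 2 * Real.pi) = Cc τ := by
    intro τ
    simp only [hCc]
    have h1 := intervalIntegral.integral_add_adjacent_intervals
      (hcosc.intervalIntegrable (μ := MeasureTheory.volume) 0 τ)
      (hcosc.intervalIntegrable (μ := MeasureTheory.volume) τ (τ + 2 * Real.pi))
    have h2 := hcosper.intervalIntegral_add_eq τ 0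
    rw [zero_add, hint] at h2
    rw [← h1, h2, add_zero]
  set L : ℝ → ℂ := fun τ => ((μ * (Real.cos τ - 1) + κ * Cc τ : ℝ) : ℂ) +
    (((x τ - x 0 - n * τ) / 2 : ℝ) : ℂ) * I with hL
  have hLd : ∀ τ, HasDerivAt L (I * μ * zz τ + κ * Complex.exp (-(x τ * I))) τ := by
    intro τ
    have h1 : HasDerivAt (fun τ : ℝ => μ * (Real.cos τ - 1) + κ * Cc τ)
        (μ * (-Real.sin τ) + κ * Real.cos (x τ)) τ :=
      (((Real.hasDerivAt_cos τ).sub_const 1).const_mul μ).add ((hCd τ).const_mul κ)
    have h2 : HasDerivAt (fun τ : ℝ => (x τ - x 0 - n * τ) / 2)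
        ((fld n (2 * μ) (2 * κ) τ (x τ) - n) / 2) τ := by
      have := (((hx τ).sub_const (x 0)).sub ((hasDerivAt_id τ).const_mul (n : ℝ))).div_const 2
      refine this.congr_deriv ?_
      ring
    have h3 := h1.ofReal_comp.add (h2.ofReal_comp.mul_const I)
    refine h3.congr_deriv ?_
    have e1 : zz τ = Real.cos τ + Real.sin τ * I := by
      unfold zz; rw [Complex.exp_mul_I, Complex.ofReal_cos, Complex.ofReal_sin]
    have e2 : Complex.exp (-(x τ * I)) = Real.cos (x τ) - Real.sin (x τ) * I := by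
      have : (-((x τ : ℂ) * I)) = (-(x τ : ℂ)) * I := by ring
      rw [this, Complex.exp_mul_I, Complex.cos_neg, Complex.sin_neg, Complex.ofReal_cos,
        Complex.ofReal_sin]
      ring
    rw [e1, e2]
    unfold fld
    push_cast
    linear_combination (-(μ * Complex.sin τ)) * Complex.I_sq
  have hLc : Continuous L := continuous_iff_continuousAt.mpr fun τ => (hLd τ).continuousAt
  have hL0 : L 0 = 0 := by
    simp [hL, hC0]
  have hLper : ∀ τ, L (τ + 2 * Real.pi) = L τ + 2 * Real.pi * I := by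
    intro τ
    simp only [hL]
    rw [hCper, hper, Real.cos_add_two_pi]
    push_cast
    ring
  set c : ℂ := -I * Complex.exp (-(x 0 * I)) with hc
  have hcc : c * conj c = 1 := by
    rw [hc, map_mul, ← Complex.exp_conj]
    simp only [map_neg, map_mul, Complex.conj_I, Complex.conj_ofReal]
    have h1 : Complex.exp (-(x 0 * I)) * Complex.exp (-(x 0 * -I)) = 1 := by
      rw [← Complex.exp_add]; simp
    linear_combination (-I * I) * h1 - Complex.I_sq
  have hcn : ‖c‖ = 1 := by
    have h1 := congrArg norm hcc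
    rw [norm_mul, Complex.norm_conj, norm_one] at h1
    nlinarith [norm_nonneg c]
  set E : ℝ → ℂ := fun τ => Complex.exp (L τ) with hE
  set H : ℝ → ℂ := fun τ => c * conj (zz τ) ^ (n + 1) * conj (E τ) with hH
  have hEper : ∀ τ, E (τ + 2 * Real.pi) = E τ := by
    intro τ
    simp only [hE]
    rw [hLper, Complex.exp_add, Complex.exp_two_pi_mul_I, mul_one]
  have hEd : ∀ τ, HasDerivAt E (I * zz τ * (μ * E τ + κ * H τ)) τ := by
    intro τ
    refine (hLd τ).cexp.congr_deriv ?_
    have key : I * zz τ * H τ = Complex.exp (-(x τ * I)) * E τ := by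
      simp only [hH, hE]
      rw [conj_zz, ← Complex.exp_nat_mul, ← Complex.exp_conj]
      have e1 : conj (L τ) = L τ - (((x τ - x 0 - n * τ) : ℝ) : ℂ) * I := by
        simp only [hL, map_add, map_mul, Complex.conj_ofReal, Complex.conj_I]
        push_cast
        ring
      rw [e1, hc]
      have e2 : Complex.exp (-(x 0 * I)) * (zz τ * (Complex.exp (((n + 1 : ℕ) : ℂ) * -(τ * I)) *
          Complex.exp (L τ - (((x τ - x 0 - n * τ) : ℝ) : ℂ) * I))) =
          Complex.exp (-(x τ * I)) * Complex.exp (L τ) := by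
        unfold zz
        rw [← Complex.exp_add, ← Complex.exp_add, ← Complex.exp_add, ← Complex.exp_add]
        congr 1
        push_cast
        ring
      rw [← e2]
      linear_combination (-(Complex.exp (-(x 0 * I)) * (zz τ *
        (Complex.exp (((n + 1 : ℕ) : ℂ) * -(τ * I)) *
          Complex.exp (L τ - (((x τ - x 0 - n * τ) : ℝ) : ℂ) * I))))) * Complex.I_sq
    have : Complex.exp (L τ) = E τ := rfl
    rw [this]
    linear_combination (-(κ : ℂ)) * key
  have hE0 : E 0 ≠ 0 := Complex.exp_ne_zero _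
  obtain ⟨a₀, ha₀, C, S, hDec, hdec⟩ := decomp hn hκ hμ hcc hEper hEd (fun _ => rfl) hE0
  obtain ⟨hp1, hD1⟩ := pos_one hκ (by linarith) hDec
  have hE1 : E0 κ μ n 1 = (eR κ μ n 1 : ℂ) := by simpa using E0_eq_eR κ μ n 1
  have hH1 : H0 κ μ n 1 = (hR κ μ n 1 : ℂ) := by simpa using H0_eq_hR κ μ n 1
  have hEm : E0 κ μ n (-1) = (eR κ μ n (-1) : ℂ) := by simpa using E0_eq_eR κ μ n (-1)
  have hHm : H0 κ μ n (-1) = (hR κ μ n (-1) : ℂ) := by simpa using H0_eq_hR κ μ n (-1)
  have hcirc : ∀ τ, 0 < ‖E0 κ μ n (zz τ)‖ ^ 2 - ‖H0 κ μ n (zz τ)‖ ^ 2 := by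
    intro τ
    rw [hDec.circle hμ0 τ, hE1, hH1, Complex.norm_real, Complex.norm_real, Real.norm_eq_abs,
      Real.norm_eq_abs, sq_abs, sq_abs]
    exact mul_pos hD1 (Real.exp_pos _)
  have hD : ∀ τ, ‖H0 κ μ n (zz τ)‖ < ‖E0 κ μ n (zz τ)‖ := by
    intro τ
    have := hcirc τ
    apply lt_of_pow_lt_pow_left₀ 2 (norm_nonneg _)
    linarith
  have hDm : 0 < eR κ μ n (-1) ^ 2 - hR κ μ n (-1) ^ 2 := by
    have := hcirc Real.pi
    rw [zz_pi, hEm, hHm, Complex.norm_real, Complex.norm_real, Real.norm_eq_abs,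
      Real.norm_eq_abs, sq_abs, sq_abs] at this
    exact this
  have hpm := pos_neg_one hκ hμ hDec hDm
  exact parity hLc hLper ha₀ hDec hcn hdec hD hp1 hpm

/-- Main theorem for `l = n ≥ 1` and `m ≥ 0`. -/
theorem main_pos {m a : ℝ} (ha : 0 < a) {n : ℕ} (hn : 1 ≤ n) (hm : 0 ≤ m) {x : ℝ → ℝ}
    (hx : IsSol n m a x) : ¬ Tendsto (fun τ => x τ / τ) atTop (𝓝 ((n : ℝ) + 2)) := by
  intro h
  obtain ⟨ξ, hξ⟩ := exists_disp_eq ha hx _ h
  obtain ⟨M, hM, y, hy, hper, hint⟩ := exists_special ha n rfl hm hξ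
  have h1 : IsSol n (2 * (M / 2)) (2 * (a / 2)) y := by
    have e1 : 2 * (M / 2) = M := by ring
    have e2 : 2 * (a / 2) = a := by ring
    rw [e1, e2]; exact hy
  exact no_special hn (by positivity) (by linarith) h1 hper hint

/-- For `l ≤ 0` the rotation number is nonpositive. -/
theorem main_nonpos {l m a r : ℝ} (hl : l ≤ 0) (hr : 0 < r) {x : ℝ → ℝ}
    (hx : IsSol l m a x) : ¬ Tendsto (fun τ => x τ / τ) atTop (𝓝 r) := by
  intro h
  have hpi := Real.pi_pos
  -- the reflected solution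
  have hy : ∀ k : ℤ, IsSol (-l) m a (fun τ => -x (τ + Real.pi) + k * (2 * Real.pi)) := by
    intro k
    have h0 : IsSol (-l) m a (fun τ => -x (τ + Real.pi)) := by
      intro τ
      have h5 := (HasDerivAt.comp_add_const τ Real.pi (hx (τ + Real.pi))).neg
      refine h5.congr_deriv ?_
      unfold fld
      rw [Real.cos_add_pi, Real.sin_neg]
      ring
    exact h0.add_int k
  obtain ⟨k, hk⟩ := exists_int_gt ((x 0 + x Real.pi) / (2 * Real.pi))
  have hk' : x 0 + x Real.pi ≤ k * (2 * Real.pi) := by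
    have := hk.le
    rwa [div_le_iff₀ (by positivity)] at this
  have hcmp : ∀ t, 0 ≤ t → x t ≤ -x (t + Real.pi) + k * (2 * Real.pi) :=
    Pool.Agent.Z26.Jos.ConeOde.comparison (fun t x => fld (-l) m a t x) (Real.toNNReal |a|)
      (fun t => fld_lip (-l) m a t) (z' := fun t => fld l m a t (x t))
      (fun t _ => hx t) (fun t _ => hy k t)
      (fun t _ => by unfold fld; linarith) (fun _ _ => le_rfl) (by
        rw [zero_add]; linarith)
  -- limits
  have h2 : Tendsto (fun t => x (t + Real.pi) / t) atTop (𝓝 r) := by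
    have h3 : Tendsto (fun t : ℝ => t + Real.pi) atTop atTop :=
      tendsto_atTop_add_const_right _ _ tendsto_id
    have h4 := h.comp h3
    have h5 : Tendsto (fun t : ℝ => (t + Real.pi) / t) atTop (𝓝 1) := by
      have h6 : Tendsto (fun t : ℝ => 1 + Real.pi / t) atTop (𝓝 (1 + 0)) :=
        tendsto_const_nhds.add (tendsto_const_nhds.div_atTop tendsto_id)
      rw [add_zero] at h6
      refine h6.congr' ?_
      filter_upwards [eventually_gt_atTop 0] with t ht
      field_simp
    have h7 := h4.mul h5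
    rw [mul_one] at h7
    refine h7.congr' ?_
    filter_upwards [eventually_gt_atTop 0] with t ht
    have : t + Real.pi ≠ 0 := by positivity
    simp only [Function.comp]
    field_simp
  have h3 : Tendsto (fun t => x t / t + x (t + Real.pi) / t - k * (2 * Real.pi) / t) atTop
      (𝓝 (r + r - 0)) :=
    (h.add h2).sub (tendsto_const_nhds.div_atTop tendsto_id)
  have h4 : r + r - 0 ≤ 0 := by
    apply le_of_tendsto h3
    filter_upwards [eventually_gt_atTop 0] with t ht
    have := hcmp t ht.le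
    have e : x t / t + x (t + Real.pi) / t - k * (2 * Real.pi) / t =
        (x t + x (t + Real.pi) - k * (2 * Real.pi)) / t := by ring
    rw [e]
    exact div_nonpos_of_nonpos_of_nonneg (by linarith) ht.le
  linarith

/-- Rescaled main theorem for `m ≥ 0`. -/
theorem main_nonneg {m a : ℝ} (ha : 0 < a) (hm : 0 ≤ m) {r : ℕ} (hr : 1 ≤ r) {x : ℝ → ℝ}
    (hx : IsSol ((r : ℝ) - 2) m a x) : ¬ Tendsto (fun τ => x τ / τ) atTop (𝓝 (r : ℝ)) := by
  rcases le_or_gt r 2 with h | h
  · apply main_nonpos (l := (r : ℝ) - 2) (m := m) (a := a) _ _ hx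
    · have : (r : ℝ) ≤ 2 := by exact_mod_cast h
      linarith
    · exact_mod_cast hr
  · obtain ⟨n, rfl⟩ : ∃ n, r = n + 2 := ⟨r - 2, by omega⟩
    have e : (((n + 2 : ℕ) : ℝ) - 2) = (n : ℝ) := by push_cast; ring
    rw [e] at hx
    have := main_pos ha (by omega : 1 ≤ n) hm hx
    push_cast
    exact this

/-- Rescaled main theorem. -/
theorem main_all {m a : ℝ} (ha : 0 < a) {r : ℕ} (hr : 1 ≤ r) {x : ℝ → ℝ}
    (hx : IsSol ((r : ℝ) - 2) m a x) : ¬ Tendsto (fun τ => x τ / τ) atTop (𝓝 (r : ℝ)) := by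
  rcases le_total 0 m with hm | hm
  · exact main_nonneg ha hm hr hx
  · intro h
    have hy : IsSol ((r : ℝ) - 2) (-m) a (fun τ => x (τ + Real.pi)) := by
      intro τ
      have h5 := HasDerivAt.comp_add_const τ Real.pi (hx (τ + Real.pi))
      refine h5.congr_deriv ?_
      unfold fld
      rw [Real.cos_add_pi]
      ring
    apply main_nonneg ha (by linarith : 0 ≤ -m) hr hy
    have h3 : Tendsto (fun t : ℝ => t + Real.pi) atTop atTop :=
      tendsto_atTop_add_const_right _ _ tendsto_id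
    have h4 := h.comp h3
    have h5 : Tendsto (fun t : ℝ => (t + Real.pi) / t) atTop (𝓝 1) := by
      have h6 : Tendsto (fun t : ℝ => 1 + Real.pi / t) atTop (𝓝 (1 + 0)) :=
        tendsto_const_nhds.add (tendsto_const_nhds.div_atTop tendsto_id)
      rw [add_zero] at h6
      refine h6.congr' ?_
      filter_upwards [eventually_gt_atTop 0] with t ht
      field_simp
    have h7 := h4.mul h5
    rw [mul_one] at h7
    refine h7.congr' ?_
    filter_upwards [eventually_gt_atTop 0] with t ht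
    have hpi := Real.pi_pos
    have : t + Real.pi ≠ 0 := by positivity
    simp only [Function.comp]
    field_simp

end Pool.Agent.Z26.Jos
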