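import Mathlib
import Pool.Agent.Z26.Jos.Jos14

set_option autoImplicit false

/-! # Uniform slope bounds in the closed half plane `l ≤ r - 2` -/

namespace Pool.Agent.Z26.Jos

open Filter Topology Set NNReal

/-- If some displacement reaches `2π(n+2)`, the special solution exists; hence none does. -/
theorem disp_lt_all {m a : ℝ} (ha : 0 < a) {n : ℕ} (hn : 1 ≤ n) (hm : 0 ≤ m) (ξ : ℝ) :
    disp (n : ℝ) m a ξ < 2 * Real.pi * ((n : ℝ) + 2) := by
  by_contra hcon
  push Not at hcon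
  have hm1 : (n : ℝ) + a < m := by
    by_contra hc
    push Not at hc
    exact absurd hcon (not_le.2 (disp_lt ha n rfl hm hc ξ))
  obtain ⟨M, ξ₂, hM, hd, hmax⟩ := exists_first (l := (n : ℝ)) ha (d₀ := 2 * Real.pi * ((n : ℝ) + 2))
    (m₀ := (n : ℝ) + a) (m₁ := m) (ξ₁ := ξ) hm1.le
    (fun ξ => disp_lt ha n rfl (by positivity) le_rfl ξ) hcon
  obtain ⟨M', hM', y, hy, hper, hint⟩ := exists_special ha n rfl
    (by have : (0:ℝ) ≤ n := n.cast_nonneg
        linarith) (ξ := ξ₂) hd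
  have h1 : IsSol n (2 * (M' / 2)) (2 * (a / 2)) y := by
    have e1 : 2 * (M' / 2) = M' := by ring
    have e2 : 2 * (a / 2) = a := by ring
    rw [e1, e2]; exact hy
  exact no_special hn (by positivity) (by linarith) h1 hper hint

/-- The displacement increases with `l`. -/
theorem disp_mono {l l' m a : ℝ} (h : l ≤ l') (ξ : ℝ) : disp l m a ξ ≤ disp l' m a ξ := by
  have h1 := Pool.Agent.Z26.Jos.ConeOde.comparison (fun t x => fld l' m a t x) (Real.toNNReal |a|)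
    (fun t => fld_lip l' m a t) (z := sol l m a ξ) (w := sol l' m a ξ)
    (z' := fun t => fld l m a t (sol l m a ξ t)) (w' := fun t => fld l' m a t (sol l' m a ξ t))
    (a := 0)
    (fun t _ => sol_isSol l m a ξ t) (fun t _ => sol_isSol l' m a ξ t)
    (fun t _ => by unfold fld; linarith) (fun _ _ => le_rfl) (by rw [sol_zero, sol_zero])
    (2 * Real.pi) (by positivity)
  unfold disp
  linarith

/-- The growth of a solution over an interval. -/
theorem IsSol.growth {l m a : ℝ} {x : ℝ → ℝ} (hx : IsSol l m a x) {s t : ℝ} (hst : s ≤ t) :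
    |x t - x s| ≤ (|l| + |m| + |a|) * (t - s) := by
  have h := (convex_univ (𝕜 := ℝ) (E := ℝ)).norm_image_sub_le_of_norm_hasDerivWithin_le
    (f := x) (f' := fun τ => fld l m a τ (x τ)) (C := |l| + |m| + |a|)
    (fun τ _ => (hx τ).hasDerivWithinAt)
    (fun τ _ => by rw [Real.norm_eq_abs]; exact fld_bound _ _ _ _ _)
    (mem_univ s) (mem_univ t)
  rw [Real.norm_eq_abs, Real.norm_eq_abs, abs_of_nonneg (sub_nonneg.2 hst)] at h
  exact h

/-- From a uniform bound of the displacement to a linear bound. -/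
theorem IsSol.lin_of_disp {l m a d : ℝ} (hd0 : 0 ≤ d) (hd : ∀ ξ, disp l m a ξ ≤ d) {x : ℝ → ℝ}
    (hx : IsSol l m a x) : ∃ K, ∀ τ, 0 ≤ τ → x τ ≤ d / (2 * Real.pi) * τ + K := by
  have hp : (0 : ℝ) < 2 * Real.pi := by positivity
  refine ⟨x 0 + (|l| + |m| + |a|) * (2 * Real.pi), fun τ hτ => ?_⟩
  set k : ℕ := ⌊τ / (2 * Real.pi)⌋₊ with hk
  have h1 : (k : ℝ) ≤ τ / (2 * Real.pi) := Nat.floor_le (by positivity)
  have h2 : τ / (2 * Real.pi) < k + 1 := Nat.lt_floor_add_one _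
  have h3 : (k : ℝ) * (2 * Real.pi) ≤ τ := by rwa [le_div_iff₀ hp] at h1
  have h4 : τ - k * (2 * Real.pi) ≤ 2 * Real.pi := by
    rw [div_lt_iff₀ hp] at h2
    linarith
  have h5 := hx.growth h3
  have h6 := (abs_le.1 h5).2
  have h7 := IsSol.le_of_disp hd hx k
  have h8 : (|l| + |m| + |a|) * (τ - k * (2 * Real.pi)) ≤ (|l| + |m| + |a|) * (2 * Real.pi) :=
    mul_le_mul_of_nonneg_left h4 (by positivity)
  have h9 : (k : ℝ) * d ≤ d / (2 * Real.pi) * τ := by
    calc (k : ℝ) * d ≤ τ / (2 * Real.pi) * d := mul_le_mul_of_nonneg_right h1 hd0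
      _ = _ := by ring
  linarith

/-- Case `l ≤ 0`: solutions are bounded above. -/
theorem bdd_nonpos {l m a : ℝ} (hl : l ≤ 0) {x : ℝ → ℝ} (hx : IsSol l m a x) :
    ∃ K, ∀ τ, 0 ≤ τ → x τ ≤ K := by
  have hpi := Real.pi_pos
  have hy : ∀ k : ℤ, IsSol (-l) m a (fun τ => -x (τ + Real.pi) + k * (2 * Real.pi)) := by
    intro k
    have h0 : IsSol (-l) m a (fun τ => -x (τ + Real.pi)) := by
      intro τ
      have h5 := (HasDerivAt.comp_add_const τ Real.pi (hx (τ + Real.pi))).neg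
      refine h5.congr_deriv ?_
      unfold fld
      rw [Real.cos_add_pi, Real.sin_neg]
      ring
    exact h0.add_int k
  obtain ⟨k, hk⟩ := exists_int_gt ((x 0 + x Real.pi) / (2 * Real.pi))
  have hk' : x 0 + x Real.pi ≤ k * (2 * Real.pi) := by
    have := hk.le
    rwa [div_le_iff₀ (by positivity)] at this
  have hcmp : ∀ t, 0 ≤ t → x t ≤ -x (t + Real.pi) + k * (2 * Real.pi) :=
    Pool.Agent.Z26.Jos.ConeOde.comparison (fun t x => fld (-l) m a t x) (Real.toNNReal |a|)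
      (fun t => fld_lip (-l) m a t) (z' := fun t => fld l m a t (x t))
      (fun t _ => hx t) (fun t _ => hy k t)
      (fun t _ => by unfold fld; linarith) (fun _ _ => le_rfl) (by
        rw [zero_add]; linarith)
  refine ⟨(k * (2 * Real.pi) + (|l| + |m| + |a|) * Real.pi) / 2, fun τ hτ => ?_⟩
  have h1 := hcmp τ hτ
  have h2 := hx.growth (show τ ≤ τ + Real.pi by linarith)
  rw [show τ + Real.pi - τ = Real.pi by ring] at h2
  have h3 := (abs_le.1 h2).1
  linarith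

/-- Uniform linear bound, `m ≥ 0`. -/
theorem lin_nonneg {l m a : ℝ} (ha : 0 < a) (hm : 0 ≤ m) {r : ℕ} (hr : 1 ≤ r)
    (hl : l ≤ (r : ℝ) - 2) : ∃ c : ℝ, 0 ≤ c ∧ c < r ∧ ∀ x : ℝ → ℝ, IsSol l m a x →
      ∃ K, ∀ τ, 0 ≤ τ → x τ ≤ c * τ + K := by
  rcases le_or_gt r 2 with h | h
  · refine ⟨0, le_rfl, by exact_mod_cast hr, fun x hx => ?_⟩
    have hl0 : l ≤ 0 := by
      have : (r : ℝ) ≤ 2 := by exact_mod_cast h
      linarith
    obtain ⟨K, hK⟩ := bdd_nonpos hl0 hx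
    exact ⟨K, fun τ hτ => by simpa using hK τ hτ⟩
  · obtain ⟨n, rfl⟩ : ∃ n, r = n + 2 := ⟨r - 2, by omega⟩
    have hn : 1 ≤ n := by omega
    have e : (((n + 2 : ℕ) : ℝ) - 2) = (n : ℝ) := by push_cast; ring
    rw [e] at hl
    obtain ⟨ξ₀, h0⟩ := disp_exists_max (l := (n : ℝ)) ha m
    have hp : (0 : ℝ) < 2 * Real.pi := by positivity
    set d : ℝ := max (disp (n : ℝ) m a ξ₀) 0 with hd
    have hd1 : d < 2 * Real.pi * ((n : ℝ) + 2) := by
      rw [hd]
      exact max_lt (disp_lt_all ha hn hm ξ₀) (by positivity)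
    refine ⟨d / (2 * Real.pi), by positivity, ?_, fun x hx => ?_⟩
    · rw [div_lt_iff₀ hp]
      push_cast
      linarith
    · exact IsSol.lin_of_disp (le_max_right _ _)
        (fun ξ => (disp_mono hl ξ).trans ((h0 ξ).trans (le_max_left _ _))) hx

/-- Uniform linear bound. -/
theorem lin_all {l m a : ℝ} (ha : 0 < a) {r : ℕ} (hr : 1 ≤ r)
    (hl : l ≤ (r : ℝ) - 2) : ∃ c : ℝ, 0 ≤ c ∧ c < r ∧ ∀ x : ℝ → ℝ, IsSol l m a x →
      ∃ K, ∀ τ, 0 ≤ τ → x τ ≤ c * τ + K := by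
  rcases le_total 0 m with hm | hm
  · exact lin_nonneg ha hm hr hl
  · obtain ⟨c, hc0, hc, h⟩ := lin_nonneg (l := l) ha (neg_nonneg.2 hm) hr hl
    refine ⟨c, hc0, hc, fun x hx => ?_⟩
    have hpi := Real.pi_pos
    have hy : IsSol l (-m) a (fun τ => x (τ + Real.pi)) := by
      intro τ
      have h5 := HasDerivAt.comp_add_const τ Real.pi (hx (τ + Real.pi))
      refine h5.congr_deriv ?_
      unfold fld
      rw [Real.cos_add_pi]
      ring
    obtain ⟨K, hK⟩ := h _ hy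
    refine ⟨K + (|l| + |m| + |a|) * Real.pi, fun τ hτ => ?_⟩
    have h1 := hK τ hτ
    have h2 := hx.growth (show τ ≤ τ + Real.pi by linarith)
    rw [show τ + Real.pi - τ = Real.pi by ring] at h2
    have h3 := (abs_le.1 h2).1
    linarith

/-- The unscaled equation. -/
theorem phi_upper {ω A B : ℝ} (hω : 0 < ω) {r : ℕ} (hr : 1 ≤ r) (hB : B ≤ ω * ((r : ℝ) - 2)) :
    ∃ c : ℝ, 0 ≤ c ∧ c < r ∧ ∀ φ : ℝ → ℝ,
      (∀ t : ℝ, HasDerivAt φ (-Real.sin (φ t) + B + A * Real.cos (ω * t)) t) →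
      ∃ K : ℝ, ∀ t : ℝ, 0 ≤ t → φ t ≤ c * (ω * t) + K := by
  obtain ⟨c, hc0, hc, h⟩ := lin_all (l := B / ω) (m := A / ω) (a := 1 / ω) (by positivity) hr
    (by rw [div_le_iff₀ hω]; linarith)
  refine ⟨c, hc0, hc, fun φ hφ => ?_⟩
  have hx : IsSol (B / ω) (A / ω) (1 / ω) (fun τ => φ (τ / ω)) := by
    intro τ
    have h1 : HasDerivAt (fun τ : ℝ => τ / ω) (1 / ω) τ := (hasDerivAt_id τ).div_const ω
    have h2 := HasDerivAt.comp τ (hφ (τ / ω)) h1
    refine h2.congr_deriv ?_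
    unfold fld
    have e : ω * (τ / ω) = τ := by field_simp
    rw [e]
    field_simp
    ring
  obtain ⟨K, hK⟩ := h _ hx
  refine ⟨K, fun t ht => ?_⟩
  have h3 := hK (ω * t) (by positivity)
  have e : ω * t / ω = t := by field_simp
  simp only [e] at h3
  exact h3

end Pool.Agent.Z26.Jos
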