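import Mathlib
import Pool.Agent.Z26.Jos.Top

set_option autoImplicit false
namespace Pool.Agent.Z26.Jos
open Filter Topology Set NNReal

/-- The period map in units of `2π`. -/
noncomputable def lift (l m a : ℝ) : CircleDeg1Lift where
  toFun := fun u => sol l m a (2 * Real.pi * u) (2 * Real.pi) / (2 * Real.pi)
  monotone' := by
    intro u v huv
    have hp : (0 : ℝ) < 2 * Real.pi := by positivity
    refine div_le_div_of_nonneg_right ?_ hp.le
    exact IsSol.mono (sol_isSol l m a _) (sol_isSol l m a _) (s := 0)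
      (by rw [sol_zero, sol_zero]; exact mul_le_mul_of_nonneg_left huv hp.le) _ hp.le
  map_add_one' := by
    intro u
    have hp : (0 : ℝ) < 2 * Real.pi := by positivity
    have h := disp_add_int l m a (2 * Real.pi * u) 1
    unfold disp at h
    have e : 2 * Real.pi * (u + 1) = 2 * Real.pi * u + ((1 : ℤ) : ℝ) * (2 * Real.pi) := by
      push_cast; ring
    rw [e]
    have h2 : sol l m a (2 * Real.pi * u + ((1 : ℤ) : ℝ) * (2 * Real.pi)) (2 * Real.pi) =
        sol l m a (2 * Real.pi * u) (2 * Real.pi) + 2 * Real.pi := by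
      push_cast at h ⊢
      linarith
    rw [h2, add_div, div_self hp.ne']

theorem lift_apply (l m a u : ℝ) :
    lift l m a u = sol l m a (2 * Real.pi * u) (2 * Real.pi) / (2 * Real.pi) := rfl

theorem IsSol.eq_pow {l m a : ℝ} {x : ℝ → ℝ} (hx : IsSol l m a x) (k : ℕ) :
    x (k * (2 * Real.pi)) / (2 * Real.pi) = (lift l m a ^ k) (x 0 / (2 * Real.pi)) := by
  have hp : (0 : ℝ) < 2 * Real.pi := by positivity
  induction k with
  | zero => simp
  | succ k ih =>
    rw [pow_succ', CircleDeg1Lift.mul_apply, ← ih, lift_apply]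
    have h := (hx.shift_nat k).eq_disp
    simp only [zero_add] at h
    unfold disp at h
    have e : ((k + 1 : ℕ) : ℝ) * (2 * Real.pi) = 2 * Real.pi + k * (2 * Real.pi) := by
      push_cast; ring
    have e2 : 2 * Real.pi * (x (k * (2 * Real.pi)) / (2 * Real.pi)) = x (k * (2 * Real.pi)) := by
      field_simp
    rw [e, h, e2]
    ring

/-- The rotation number exists. -/
theorem exists_rho (l m a : ℝ) : ∃ ρ : ℝ, ∀ x : ℝ → ℝ, IsSol l m a x →
    Tendsto (fun τ => x τ / τ) atTop (𝓝 ρ) := by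
  have hp : (0 : ℝ) < 2 * Real.pi := by positivity
  refine ⟨(lift l m a).translationNumber, fun x hx => ?_⟩
  have h1 : Tendsto (fun k : ℕ => x (k * (2 * Real.pi)) / (k * (2 * Real.pi))) atTop
      (𝓝 ((lift l m a).translationNumber)) := by
    have h2 := (lift l m a).tendsto_translationNumber (x 0 / (2 * Real.pi))
    have h3 : Tendsto (fun k : ℕ => (x 0 / (2 * Real.pi)) / (k : ℝ)) atTop (𝓝 0) :=
      tendsto_const_div_atTop_nhds_zero_nat _
    have h4 := h2.add h3
    rw [add_zero] at h4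
    refine h4.congr' ?_
    filter_upwards [eventually_gt_atTop 0] with k hk
    have hk' : (k : ℝ) ≠ 0 := by exact_mod_cast hk.ne'
    rw [← hx.eq_pow k]
    field_simp
    ring
  have h5 : Tendsto (fun τ : ℝ => ⌊τ / (2 * Real.pi)⌋₊) atTop atTop :=
    tendsto_nat_floor_atTop.comp (tendsto_id.atTop_div_const hp)
  have h6 := h1.comp h5
  have h7 : Tendsto (fun τ : ℝ => ((⌊τ / (2 * Real.pi)⌋₊ : ℕ) : ℝ) / (τ / (2 * Real.pi))) atTop (𝓝 1) :=
    (tendsto_nat_floor_div_atTop (R := ℝ)).comp (tendsto_id.atTop_div_const hp)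
  have h8 : Tendsto (fun τ : ℝ => (x τ - x ((⌊τ / (2 * Real.pi)⌋₊ : ℕ) * (2 * Real.pi))) / τ)
      atTop (𝓝 0) := by
    have h9 : Tendsto (fun τ : ℝ => (|l| + |m| + |a|) * (2 * Real.pi) / τ) atTop (𝓝 0) :=
      tendsto_const_nhds.div_atTop tendsto_id
    refine squeeze_zero_norm' ?_ h9
    filter_upwards [eventually_gt_atTop 0] with τ hτ
    have g1 : ((⌊τ / (2 * Real.pi)⌋₊ : ℕ) : ℝ) ≤ τ / (2 * Real.pi) := Nat.floor_le (by positivity)
    have g2 : τ / (2 * Real.pi) < ((⌊τ / (2 * Real.pi)⌋₊ : ℕ) : ℝ) + 1 := Nat.lt_floor_add_one _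
    rw [le_div_iff₀ hp] at g1
    rw [div_lt_iff₀ hp] at g2
    have g3 := hx.growth g1
    rw [Real.norm_eq_abs, abs_div, abs_of_pos hτ]
    refine div_le_div_of_nonneg_right (g3.trans ?_) hτ.le
    exact mul_le_mul_of_nonneg_left (by linarith) (by positivity)
  have h10 := (h6.mul h7).add h8
  rw [mul_one, add_zero] at h10
  refine h10.congr' ?_
  filter_upwards [eventually_ge_atTop (2 * Real.pi)] with τ hτ
  have hτ0 : 0 < τ := hp.trans_le hτ
  have hk : 0 < ⌊τ / (2 * Real.pi)⌋₊ := Nat.floor_pos.2 (by rwa [one_le_div hp])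
  have hk' : ((⌊τ / (2 * Real.pi)⌋₊ : ℕ) : ℝ) ≠ 0 := by exact_mod_cast hk.ne'
  simp only [Function.comp]
  field_simp
  ring

/-- Rescaling a solution of the original equation. -/
theorem scale {ω A B : ℝ} (hω : 0 < ω) {φ : ℝ → ℝ}
    (hφ : ∀ t : ℝ, HasDerivAt φ (-Real.sin (φ t) + B + A * Real.cos (ω * t)) t) :
    IsSol (B / ω) (A / ω) (1 / ω) (fun τ => φ (τ / ω)) := by
  intro τ
  have h1 : HasDerivAt (fun τ : ℝ => τ / ω) (1 / ω) τ := (hasDerivAt_id τ).div_const ω
  have h2 := HasDerivAt.comp τ (hφ (τ / ω)) h1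
  refine h2.congr_deriv ?_
  unfold fld
  have e : ω * (τ / ω) = τ := by field_simp
  rw [e]
  field_simp
  ring

/-- Scaling back. -/
theorem unscale {ω A B : ℝ} (hω : 0 < ω) {x : ℝ → ℝ}
    (hx : IsSol (B / ω) (A / ω) (1 / ω) x) (t : ℝ) :
    HasDerivAt (fun t => x (ω * t))
      (-Real.sin (x (ω * t)) + B + A * Real.cos (ω * t)) t := by
  have h1 : HasDerivAt (fun t : ℝ => ω * t) ω t := by
    simpa using (hasDerivAt_id t).const_mul ω
  have h2 := HasDerivAt.comp t (hx (ω * t)) h1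
  refine h2.congr_deriv ?_
  unfold fld
  field_simp
  ring

theorem rho_lt {ω A B ρ : ℝ} (hω : 0 < ω) {r : ℕ} (hr : 1 ≤ r) (hB : B ≤ ω * ((r : ℝ) - 2))
    {φ : ℝ → ℝ} (hφ : ∀ t : ℝ, HasDerivAt φ (-Real.sin (φ t) + B + A * Real.cos (ω * t)) t)
    (h : Tendsto (fun t : ℝ => φ t / (ω * t)) atTop (𝓝 ρ)) : ρ < r := by
  obtain ⟨c, -, hc, hall⟩ := phi_upper (A := A) hω hr hB
  obtain ⟨K, hK⟩ := hall φ hφ
  refine lt_of_le_of_lt ?_ hc
  have h1 : Tendsto (fun t : ℝ => c + K / (ω * t)) atTop (𝓝 (c + 0)) :=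
    tendsto_const_nhds.add (tendsto_const_nhds.div_atTop (tendsto_id.const_mul_atTop hω))
  rw [add_zero] at h1
  refine le_of_tendsto_of_tendsto h h1 ?_
  filter_upwards [eventually_gt_atTop 0] with t ht
  have h2 := hK t ht.le
  have h3 : 0 < ω * t := by positivity
  rw [div_le_iff₀ h3]
  have : (c + K / (ω * t)) * (ω * t) = c * (ω * t) + K := by field_simp
  rw [this]
  exact h2

theorem reflect {ω A B : ℝ} (hω : 0 < ω) {φ : ℝ → ℝ}
    (hφ : ∀ t : ℝ, HasDerivAt φ (-Real.sin (φ t) + B + A * Real.cos (ω * t)) t) (t : ℝ) :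
    HasDerivAt (fun t => -φ t)
      (-Real.sin (-φ t) + (-B) + (-A) * Real.cos (ω * t)) t := by
  refine (hφ t).neg.congr_deriv ?_
  rw [Real.sin_neg]
  ring

end Pool.Agent.Z26.Jos
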